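import Pool.Agent.Helper78.CE.Defs

/-!
# CE-B2: the real inequalities behind the cubic transversality
-/

open MeasureTheory Real Set Filter Topology

set_option autoImplicit false

namespace Pool.Agent.Helper78.CE

open Pool.Agent.Helper22.AE
open Pool.Agent.Helper92.GC

/-- the change of slope `τ ↦ τ / (1 + δ τ)` -/
noncomputable def sl (δ τ : ℝ) : ℝ := τ / (1 + δ * τ)

theorem sl_den {δ τ : ℝ} (hδ : |δ| ≤ 1 / 40) (h : |τ| ≤ 6) : 17 / 20 ≤ 1 + δ * τ ∧ 1 + δ * τ ≤ 23 / 20 := by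
  have h1 : |δ * τ| ≤ 1 / 40 * 6 := by
    rw [abs_mul]
    exact mul_le_mul hδ h (abs_nonneg _) (by norm_num)
  rw [abs_le] at h1
  constructor <;> linarith only [h1.1, h1.2]

theorem sl_diff {δ τ τ' : ℝ} (hδ : |δ| ≤ 1 / 40) (h : |τ| ≤ 6) (h' : |τ'| ≤ 6) (hle : τ' ≤ τ) :
    3 / 4 * (τ - τ') ≤ sl δ τ - sl δ τ' ∧ sl δ τ - sl δ τ' ≤ 7 / 5 * (τ - τ') := by
  obtain ⟨a1, a2⟩ := sl_den hδ h
  obtain ⟨b1, b2⟩ := sl_den hδ h'
  have ha : 0 < 1 + δ * τ := by linarith only [a1]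
  have hb : 0 < 1 + δ * τ' := by linarith only [b1]
  have e : sl δ τ - sl δ τ' = (τ - τ') / ((1 + δ * τ) * (1 + δ * τ')) := by
    unfold sl
    rw [div_sub_div _ _ ha.ne' hb.ne']
    congr 1
    ring
  have hd : 0 ≤ τ - τ' := by linarith only [hle]
  have p1 : (1 + δ * τ) * (1 + δ * τ') ≤ 23 / 20 * (23 / 20) := mul_le_mul a2 b2 hb.le (by norm_num)
  have p2 : 17 / 20 * (17 / 20) ≤ (1 + δ * τ) * (1 + δ * τ') := mul_le_mul a1 b1 (by norm_num) ha.le
  have hp : 0 < (1 + δ * τ) * (1 + δ * τ') := mul_pos ha hb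
  rw [e]
  constructor
  · rw [le_div_iff₀ hp]
    have : (τ - τ') * ((1 + δ * τ) * (1 + δ * τ')) ≤ (τ - τ') * (23 / 20 * (23 / 20)) :=
      mul_le_mul_of_nonneg_left p1 hd
    nlinarith only [hle, this]
  · rw [div_le_iff₀ hp]
    have : (τ - τ') * (17 / 20 * (17 / 20)) ≤ (τ - τ') * ((1 + δ * τ) * (1 + δ * τ')) :=
      mul_le_mul_of_nonneg_left p2 hd
    nlinarith only [hle, this]

theorem sl_bd {δ τ : ℝ} (hδ : |δ| ≤ 1 / 40) (h : |τ| ≤ 6) : |sl δ τ| ≤ 8 := by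
  obtain ⟨a1, a2⟩ := sl_den hδ h
  have ha : 0 < 1 + δ * τ := by linarith only [a1]
  unfold sl
  rw [abs_div, abs_of_pos ha, div_le_iff₀ ha]
  linarith only [h, a1, ha]

/-- members of the region -/
theorem reg_pt {β₀ β₁ H : ℝ} {B : Finset (ℤ × ℤ)} (hH : 0 < H) (hB : InReg β₀ H B) (hβ : |β₁ - β₀| ≤ 1 / 40) {k : ℤ × ℤ} (hk : k ∈ B) :
    H / 10 ≤ uu β₁ k ∧ uu β₁ k ≤ 18 * H ∧ |tt β₀ k| ≤ 5 ∧ tt β₁ k = sl (β₁ - β₀) (tt β₀ k) := by
  obtain ⟨h1, h2, h3⟩ := hB k hk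
  have hu : 0 < uu β₀ k := by linarith only [hH, h1]
  have ht : |tt β₀ k| ≤ 5 := by
    rw [tt, abs_div, abs_of_pos hu, div_le_iff₀ hu]
    exact h3
  have h4 : |(β₁ - β₀) * tt β₀ k| ≤ 1 / 40 * 5 := by
    rw [abs_mul]
    exact mul_le_mul hβ ht (abs_nonneg _) (by norm_num)
  have e1 : tt β₀ k * uu β₀ k = k.2 := by
    rw [tt]; field_simp
  have e2 : uu β₁ k = uu β₀ k * (1 + (β₁ - β₀) * tt β₀ k) := by
    have : uu β₁ k = uu β₀ k + (β₁ - β₀) * k.2 := by unfold uu; ring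
    rw [this, ← e1]
    ring
  rw [abs_le] at h4
  have hd : 0 < 1 + (β₁ - β₀) * tt β₀ k := by linarith only [h4.1]
  refine ⟨?_, ?_, ht, ?_⟩
  · rw [e2]
    have : uu β₀ k * (7 / 8) ≤ uu β₀ k * (1 + (β₁ - β₀) * tt β₀ k) :=
      mul_le_mul_of_nonneg_left (by linarith only [h4.1]) hu.le
    linarith only [h1, hu, this]
  · rw [e2]
    have : uu β₀ k * (1 + (β₁ - β₀) * tt β₀ k) ≤ uu β₀ k * (9 / 8) :=
      mul_le_mul_of_nonneg_left (by linarith only [h4.2]) hu.le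
    linarith only [h2, this]
  · rw [sl, tt, e2, ← e1]
    field_simp

/-- the first inequality: `|u σ³ - u' σ'³ + R|` is large -/
theorem real1 {H m D ω g η u u' σ σ' R : ℝ} (hH : 0 < H) (hm : 10000 ≤ m) (hD : 0 < D) (hω : 0 < ω)
    (hu : H / 10 ≤ u) (huu : |u - u'| ≤ η * H) (h1 : 3 / 4 * D ≤ |σ|) (h1' : 3 / 4 * D ≤ |σ'|) (hs : 0 < σ * σ')
    (h2 : |σ'| ≤ 7 / 5 * (m * D)) (hg0 : 0 < g) (hg : 3 / 4 * g ≤ |σ - σ'|) (hgD : m * ω ^ 3 ≤ g * D ^ 2)
    (hη : η * (m * D) ^ 3 ≤ ω ^ 3) (hR : |R| ≤ 500 * (H * ω ^ 3)) :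
    H * ω ^ 3 ≤ |u * σ ^ 3 - u' * σ' ^ 3 + R| := by
  have hηH : 0 ≤ η * H := (abs_nonneg _).trans huu
  have hu0 : 0 < u := by linarith only [hH, hu]
  have q1 : 9 / 16 * D ^ 2 ≤ σ ^ 2 := by
    rw [← sq_abs σ]
    have := pow_le_pow_left₀ (by positivity) h1 2
    nlinarith only [this]
  have q2 : 9 / 16 * D ^ 2 ≤ σ' ^ 2 := by
    rw [← sq_abs σ']
    have := pow_le_pow_left₀ (by positivity) h1' 2
    nlinarith only [this]
  have q3 : 9 / 16 * D ^ 2 ≤ σ * σ' := by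
    have e : σ * σ' = |σ| * |σ'| := by rw [← abs_mul, abs_of_pos hs]
    rw [e]
    have := mul_le_mul h1 h1' (by positivity) (abs_nonneg _)
    nlinarith only [this]
  have q4 : 3 / 4 * g * (27 / 16 * D ^ 2) ≤ |σ ^ 3 - σ' ^ 3| := by
    have e : σ ^ 3 - σ' ^ 3 = (σ - σ') * (σ ^ 2 + σ * σ' + σ' ^ 2) := by ring
    rw [e, abs_mul]
    refine mul_le_mul hg ?_ (by positivity) (abs_nonneg _)
    refine le_trans ?_ (le_abs_self _)
    linarith only [q1, q2, q3]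
  have q5 : |u * σ ^ 3 - u' * σ' ^ 3 + R| ≥ u * |σ ^ 3 - σ' ^ 3| - |u - u'| * |σ'| ^ 3 - |R| := by
    have e : u * σ ^ 3 - u' * σ' ^ 3 + R = u * (σ ^ 3 - σ' ^ 3) + ((u - u') * σ' ^ 3 + R) := by ring
    rw [e]
    have h3 := abs_sub_abs_le_abs_sub (u * (σ ^ 3 - σ' ^ 3)) (-((u - u') * σ' ^ 3 + R))
    rw [sub_neg_eq_add, abs_neg, abs_mul, abs_of_pos hu0] at h3
    have h4 := abs_add_le ((u - u') * σ' ^ 3) R
    rw [abs_mul, abs_pow] at h4
    linarith only [h3, h4]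
  have q6 : |u - u'| * |σ'| ^ 3 ≤ 3 * (H * ω ^ 3) := by
    have h3 : |σ'| ^ 3 ≤ (7 / 5 * (m * D)) ^ 3 := pow_le_pow_left₀ (abs_nonneg _) h2 3
    have h4 : |u - u'| * |σ'| ^ 3 ≤ η * H * (7 / 5 * (m * D)) ^ 3 :=
      mul_le_mul huu h3 (by positivity) hηH
    have h5 : η * H * (7 / 5 * (m * D)) ^ 3 = 343 / 125 * H * (η * (m * D) ^ 3) := by ring
    have h6 : 343 / 125 * H * (η * (m * D) ^ 3) ≤ 343 / 125 * H * ω ^ 3 :=
      mul_le_mul_of_nonneg_left hη (by positivity)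
    have h7 : 0 < H * ω ^ 3 := by positivity
    nlinarith only [h4, h6, h7]
  have q7 : 1000 * (H * ω ^ 3) ≤ u * |σ ^ 3 - σ' ^ 3| := by
    have h3 : H / 10 * (3 / 4 * g * (27 / 16 * D ^ 2)) ≤ u * |σ ^ 3 - σ' ^ 3| :=
      mul_le_mul hu q4 (by positivity) hu0.le
    have h4 : H / 10 * (3 / 4 * g * (27 / 16 * D ^ 2)) = 81 / 640 * H * (g * D ^ 2) := by ring
    have h5 : 81 / 640 * H * (m * ω ^ 3) ≤ 81 / 640 * H * (g * D ^ 2) :=
      mul_le_mul_of_nonneg_left hgD (by positivity)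
    have h6 : 81 / 640 * H * (10000 * ω ^ 3) ≤ 81 / 640 * H * (m * ω ^ 3) := by
      apply mul_le_mul_of_nonneg_left _ (by positivity)
      exact mul_le_mul_of_nonneg_right hm (by positivity)
    have h7 : 0 < H * ω ^ 3 := by positivity
    nlinarith only [h3, h5, h6, h7]
  have h7 : 0 < H * ω ^ 3 := by positivity
  linarith only [hR, q5, q6, q7, h7]

/-- the lower bound for the divided difference of `Q(σ) = (σ - T)² (σ + T/2)` -/
theorem real_q {D d T A B : ℝ} (hd : 0 < d) (hdD : d ≤ D) (hσ : 3 / 4 * D ≤ |T + A|) (hσ' : 3 / 4 * D ≤ |T + B|)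
    (hA : 3 / 4 * d ≤ |A|) (hB : 3 / 4 * d ≤ |B|) (hAB : 0 < A * B) (hss : 0 < (T + A) * (T + B)) :
    3 / 4 * (|T| * d) ≤ |A ^ 2 + A * B + B ^ 2 + 3 / 2 * T * (A + B)| := by
  have key : ∀ {σ a : ℝ}, 3 / 4 * D ≤ |σ| → 3 / 4 * d ≤ |a| → σ - a = T → 3 / 8 * (|T| * d) ≤ |σ * a| := by
    intro σ a h1 h2 h3
    have h4 : |T| ≤ |σ| + |a| := by
      rw [← h3]
      have := abs_add_le σ (-a)
      rw [abs_neg, ← sub_eq_add_neg] at this
      exact this
    rw [abs_mul]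
    rcases le_total (|T| / 2) |σ| with h5 | h5
    · have := mul_le_mul h5 h2 (by positivity) (abs_nonneg _)
      linarith only [this]
    · have h6 : |T| / 2 ≤ |a| := by linarith only [h4, h5]
      have h7 : 3 / 4 * d ≤ |σ| := by linarith only [hdD, h1]
      have := mul_le_mul h7 h6 (by positivity) (abs_nonneg _)
      linarith only [this]
  have k1 := key hσ hA (by ring)
  have k2 := key hσ' hB (by ring)
  have e : A ^ 2 + A * B + B ^ 2 + 3 / 2 * T * (A + B) =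
      (T + A) * A + (T + B) * B + 1 / 2 * ((T + A) * B + (T + B) * A) := by ring
  rw [e]
  -- all products have the same sign
  rcases lt_trichotomy A 0 with hA0 | hA0 | hA0
  · have hB0 : B < 0 := by
      by_contra hcon
      push Not at hcon
      nlinarith only [hcon, hAB, hA0]
    rcases lt_trichotomy (T + A) 0 with hs0 | hs0 | hs0
    · have hs0' : T + B < 0 := by
        by_contra hcon
        push Not at hcon
        nlinarith only [hss, hs0, hcon]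
      have p1 : 0 < (T + A) * A := mul_pos_of_neg_of_neg hs0 hA0
      have p2 : 0 < (T + B) * B := mul_pos_of_neg_of_neg hs0' hB0
      have p3 : 0 < (T + A) * B := mul_pos_of_neg_of_neg hs0 hB0
      have p4 : 0 < (T + B) * A := mul_pos_of_neg_of_neg hs0' hA0
      rw [abs_of_pos p1] at k1
      rw [abs_of_pos p2] at k2
      exact le_trans (by linarith only [k1, k2, p3, p4]) (le_abs_self _)
    · rw [hs0, zero_mul] at hss
      exact absurd hss (lt_irrefl 0)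
    · have hs0' : 0 < T + B := by
        by_contra hcon
        push Not at hcon
        nlinarith only [hss, hs0, hcon]
      have p1 : (T + A) * A < 0 := mul_neg_of_pos_of_neg hs0 hA0
      have p2 : (T + B) * B < 0 := mul_neg_of_pos_of_neg hs0' hB0
      have p3 : (T + A) * B < 0 := mul_neg_of_pos_of_neg hs0 hB0
      have p4 : (T + B) * A < 0 := mul_neg_of_pos_of_neg hs0' hA0
      rw [abs_of_neg p1] at k1
      rw [abs_of_neg p2] at k2
      exact le_trans (by linarith only [k1, k2, p3, p4]) (neg_le_abs _)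
  · rw [hA0, zero_mul] at hAB
    exact absurd hAB (lt_irrefl 0)
  · have hB0 : 0 < B := by
      by_contra hcon
      push Not at hcon
      nlinarith only [hcon, hAB, hA0]
    rcases lt_trichotomy (T + A) 0 with hs0 | hs0 | hs0
    · have hs0' : T + B < 0 := by
        by_contra hcon
        push Not at hcon
        nlinarith only [hss, hs0, hcon]
      have p1 : (T + A) * A < 0 := mul_neg_of_neg_of_pos hs0 hA0
      have p2 : (T + B) * B < 0 := mul_neg_of_neg_of_pos hs0' hB0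
      have p3 : (T + A) * B < 0 := mul_neg_of_neg_of_pos hs0 hB0
      have p4 : (T + B) * A < 0 := mul_neg_of_neg_of_pos hs0' hA0
      rw [abs_of_neg p1] at k1
      rw [abs_of_neg p2] at k2
      exact le_trans (by linarith only [k1, k2, p3, p4]) (neg_le_abs _)
    · rw [hs0, zero_mul] at hss
      exact absurd hss (lt_irrefl 0)
    · have hs0' : 0 < T + B := by
        by_contra hcon
        push Not at hcon
        nlinarith only [hss, hs0, hcon]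
      have p1 : 0 < (T + A) * A := mul_pos hs0 hA0
      have p2 : 0 < (T + B) * B := mul_pos hs0' hB0
      have p3 : 0 < (T + A) * B := mul_pos hs0 hB0
      have p4 : 0 < (T + B) * A := mul_pos hs0' hA0
      rw [abs_of_pos p1] at k1
      rw [abs_of_pos p2] at k2
      exact le_trans (by linarith only [k1, k2, p3, p4]) (le_abs_self _)

/-- the second inequality -/
theorem real2 {H m D d ωK ωJ g η u u' T A B R : ℝ} (hH : 0 < H) (hm : 100000 ≤ m) (hd : 0 < d) (hdD : d ≤ D)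
    (hJ0 : 0 < ωJ) (hJK : ωJ ≤ ωK) (hu : H / 10 ≤ u) (huu : |u - u'| ≤ η * H)
    (hT : 3 / 4 * D ≤ |T|) (hT' : |T| ≤ 7 / 5 * (m * D))
    (hσ : 3 / 4 * D ≤ |T + A|) (hσ' : 3 / 4 * D ≤ |T + B|)
    (hA : 3 / 4 * d ≤ |A|) (hB : 3 / 4 * d ≤ |B|) (hB' : |B| ≤ 7 / 5 * (m * d)) (hAB : 0 < A * B) (hss : 0 < (T + A) * (T + B))
    (hg0 : 0 < g) (hg : 3 / 4 * g ≤ |A - B|) (hgd : m * ωK ^ 2 ≤ g * d) (hη0 : 0 ≤ η) (hη : η * (m ^ 3 * D ^ 2) ≤ ωJ ^ 2)
    (hR : |R| ≤ 1200 * (H * ωK ^ 2 * |T|) + 3 / 2 * η * H * |T| ^ 3) :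
    H * ωK ^ 2 * |T| ≤ |u * (A ^ 2 * (A + 3 / 2 * T)) - u' * (B ^ 2 * (B + 3 / 2 * T)) + R| := by
  have hD : 0 < D := by linarith only [hd, hdD]
  have hT0 : 0 < |T| := by linarith only [hd, hdD, hT]
  have hu0 : 0 < u := by linarith only [hH, hu]
  have hηH : 0 ≤ η * H := by positivity
  have hK0 : 0 < ωK := by linarith only [hJ0, hJK]
  have hW : 0 < H * ωK ^ 2 * |T| := by positivity
  have hJK2 : ωJ ^ 2 ≤ ωK ^ 2 := pow_le_pow_left₀ hJ0.le hJK 2
  -- main term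
  have q1 := real_q hd hdD hσ hσ' hA hB hAB hss
  have q2 : 3 / 4 * g * (3 / 4 * (|T| * d)) ≤ |A ^ 2 * (A + 3 / 2 * T) - B ^ 2 * (B + 3 / 2 * T)| := by
    have e : A ^ 2 * (A + 3 / 2 * T) - B ^ 2 * (B + 3 / 2 * T) =
        (A - B) * (A ^ 2 + A * B + B ^ 2 + 3 / 2 * T * (A + B)) := by ring
    rw [e, abs_mul]
    exact mul_le_mul hg q1 (by positivity) (abs_nonneg _)
  have q3 : 5000 * (H * ωK ^ 2 * |T|) ≤ u * |A ^ 2 * (A + 3 / 2 * T) - B ^ 2 * (B + 3 / 2 * T)| := by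
    have h3 : H / 10 * (3 / 4 * g * (3 / 4 * (|T| * d))) ≤ u * |A ^ 2 * (A + 3 / 2 * T) - B ^ 2 * (B + 3 / 2 * T)| :=
      mul_le_mul hu q2 (by positivity) hu0.le
    have h4 : H / 10 * (3 / 4 * g * (3 / 4 * (|T| * d))) = 9 / 160 * (H * |T|) * (g * d) := by ring
    have h5 : 9 / 160 * (H * |T|) * (m * ωK ^ 2) ≤ 9 / 160 * (H * |T|) * (g * d) :=
      mul_le_mul_of_nonneg_left hgd (by positivity)
    have h6 : 9 / 160 * (H * |T|) * (100000 * ωK ^ 2) ≤ 9 / 160 * (H * |T|) * (m * ωK ^ 2) := by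
      apply mul_le_mul_of_nonneg_left _ (by positivity)
      exact mul_le_mul_of_nonneg_right hm (by positivity)
    have h7 : 9 / 160 * (H * |T|) * (100000 * ωK ^ 2) = 5625 * (H * ωK ^ 2 * |T|) := by ring
    linarith only [hW, h3, h5, h6]
  -- the variation of u
  have q4 : |B ^ 2 * (B + 3 / 2 * T)| ≤ 49 / 25 * (m * d) ^ 2 * (7 / 5 * (m * D) * (5 / 2)) := by
    rw [abs_mul, abs_pow]
    have h3 : |B| ^ 2 ≤ 49 / 25 * (m * d) ^ 2 := by
      have := pow_le_pow_left₀ (abs_nonneg _) hB' 2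
      have e : (7 / 5 * (m * d)) ^ 2 = 49 / 25 * (m * d) ^ 2 := by ring
      rwa [e] at this
    have h4 : |B + 3 / 2 * T| ≤ 7 / 5 * (m * D) * (5 / 2) := by
      have h5 := abs_add_le B (3 / 2 * T)
      rw [abs_mul, abs_of_pos (by norm_num : (0 : ℝ) < 3 / 2)] at h5
      have h6 : |B| ≤ 7 / 5 * (m * D) := hB'.trans (by
        apply mul_le_mul_of_nonneg_left _ (by norm_num)
        exact mul_le_mul_of_nonneg_left hdD (by linarith only [hm]))
      linarith only [hT', h5, h6]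
    exact mul_le_mul h3 h4 (abs_nonneg _) (by positivity)
  have q5 : |u - u'| * |B ^ 2 * (B + 3 / 2 * T)| ≤ 10 * (H * ωK ^ 2 * |T|) := by
    have h3 : |u - u'| * |B ^ 2 * (B + 3 / 2 * T)| ≤ η * H * (49 / 25 * (m * d) ^ 2 * (7 / 5 * (m * D) * (5 / 2))) :=
      mul_le_mul huu q4 (abs_nonneg _) hηH
    have h4 : η * H * (49 / 25 * (m * d) ^ 2 * (7 / 5 * (m * D) * (5 / 2))) = 343 / 50 * H * D * (η * (m ^ 3 * d ^ 2)) := by ring
    have h5 : η * (m ^ 3 * d ^ 2) ≤ ωK ^ 2 := by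
      have h6 : d ^ 2 ≤ D ^ 2 := pow_le_pow_left₀ hd.le hdD 2
      have h7 : η * (m ^ 3 * d ^ 2) ≤ η * (m ^ 3 * D ^ 2) := by
        apply mul_le_mul_of_nonneg_left _ hη0
        exact mul_le_mul_of_nonneg_left h6 (by positivity)
      linarith only [hη, hJK2, h7]
    have h6 : 343 / 50 * H * D * (η * (m ^ 3 * d ^ 2)) ≤ 343 / 50 * H * D * ωK ^ 2 :=
      mul_le_mul_of_nonneg_left h5 (by positivity)
    have h7 : 343 / 50 * H * D * ωK ^ 2 ≤ 343 / 50 * H * (4 / 3 * |T|) * ωK ^ 2 := by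
      apply mul_le_mul_of_nonneg_right _ (by positivity)
      apply mul_le_mul_of_nonneg_left _ (by positivity)
      linarith only [hT]
    have h8 : 343 / 50 * H * (4 / 3 * |T|) * ωK ^ 2 = 686 / 75 * (H * ωK ^ 2 * |T|) := by ring
    linarith only [hW, h3, h6, h7]
  have q6 : 3 / 2 * η * H * |T| ^ 3 ≤ 3 * (H * ωK ^ 2 * |T|) := by
    have h3 : |T| ^ 2 ≤ 49 / 25 * (m * D) ^ 2 := by
      have := pow_le_pow_left₀ (abs_nonneg _) hT' 2
      have e : (7 / 5 * (m * D)) ^ 2 = 49 / 25 * (m * D) ^ 2 := by ring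
      rwa [e] at this
    have h4 : 3 / 2 * η * H * |T| ^ 3 = 3 / 2 * (H * |T|) * (η * |T| ^ 2) := by ring
    have h5 : η * |T| ^ 2 ≤ 49 / 25 * (η * (m ^ 3 * D ^ 2)) := by
      have h6 : η * |T| ^ 2 ≤ η * (49 / 25 * (m * D) ^ 2) := mul_le_mul_of_nonneg_left h3 hη0
      have h7 : (m * D) ^ 2 ≤ m ^ 3 * D ^ 2 := by
        have : m ^ 3 * D ^ 2 = m * (m * D) ^ 2 := by ring
        rw [this]
        have h8 : 0 ≤ (m * D) ^ 2 := by positivity
        nlinarith only [hm]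
      have h8 : η * (49 / 25 * (m * D) ^ 2) ≤ η * (49 / 25 * (m ^ 3 * D ^ 2)) := by
        apply mul_le_mul_of_nonneg_left _ hη0
        linarith only [h7]
      linarith only [h6, h8]
    have h6 : 3 / 2 * (H * |T|) * (η * |T| ^ 2) ≤ 3 / 2 * (H * |T|) * (49 / 25 * ωK ^ 2) := by
      apply mul_le_mul_of_nonneg_left _ (by positivity)
      linarith only [hη, hJK2, h5]
    have h7 : 3 / 2 * (H * |T|) * (49 / 25 * ωK ^ 2) = 147 / 50 * (H * ωK ^ 2 * |T|) := by ring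
    linarith only [hW, h6]
  have e : u * (A ^ 2 * (A + 3 / 2 * T)) - u' * (B ^ 2 * (B + 3 / 2 * T)) + R =
      u * (A ^ 2 * (A + 3 / 2 * T) - B ^ 2 * (B + 3 / 2 * T)) + ((u - u') * (B ^ 2 * (B + 3 / 2 * T)) + R) := by ring
  rw [e]
  have h3 := abs_sub_abs_le_abs_sub (u * (A ^ 2 * (A + 3 / 2 * T) - B ^ 2 * (B + 3 / 2 * T)))
    (-((u - u') * (B ^ 2 * (B + 3 / 2 * T)) + R))
  rw [sub_neg_eq_add, abs_neg, abs_mul, abs_of_pos hu0] at h3
  have h4 := abs_add_le ((u - u') * (B ^ 2 * (B + 3 / 2 * T))) R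
  rw [abs_mul] at h4
  linarith only [hR, hW, q3, q5, q6, h3, h4]

end Pool.Agent.Helper78.CE
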