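import Pool.Agent.Helper78.CE.B2

/-!
# CE-B3: cubic transversality, first relation (`geo1`), and the common lemmas
-/

open MeasureTheory Real Set Filter Topology

set_option autoImplicit false

namespace Pool.Agent.Helper78.CE

open Pool.Agent.Helper22.AE
open Pool.Agent.Helper92.GC
open Pool.Agent.Helper22.AC (sep)

/-- alternating sum over twelve points -/
def sg (F : ℤ × ℤ → ℝ) (x x' y₁ y₂ y₃ y₄ z₁ z₂ z₃ z₄ z₅ z₆ : ℤ × ℤ) : ℝ :=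
  F x - F x' + F y₁ + F y₂ - F y₃ - F y₄ + F z₁ + F z₂ + F z₃ - F z₄ - F z₅ - F z₆

/-- the position of a point in its arc -/
theorem fl_pos {D m : ℝ} (hD : 0 < D) (hm : 0 < m) {e i : ℕ} {x K : ℝ} (hx : 0 ≤ x) (hK : K * D = 12 * m ^ e)
    (h : ⌊K * (x / 12)⌋₊ = i) : (i : ℝ) / m ^ e * D ≤ x ∧ x < ((i : ℝ) + 1) / m ^ e * D := by
  have hme : 0 < m ^ e := pow_pos hm e
  have hK0 : 0 < K := by
    by_contra hcon
    push Not at hcon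
    nlinarith only [hK, hme, hD, hcon]
  have h0 : 0 ≤ K * (x / 12) := by positivity
  rw [Nat.floor_eq_iff h0] at h
  have e3 : x = K * (x / 12) * (D / m ^ e) := by
    have : K * (x / 12) * (D / m ^ e) = (K * D) * (x / 12) / m ^ e := by ring
    rw [this, hK]
    field_simp
  have hp : 0 < D / m ^ e := by positivity
  constructor
  · calc (i : ℝ) / m ^ e * D = i * (D / m ^ e) := by ring
      _ ≤ K * (x / 12) * (D / m ^ e) := mul_le_mul_of_nonneg_right h.1 hp.le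
      _ = x := e3.symm
  · calc x = K * (x / 12) * (D / m ^ e) := e3
      _ < (i + 1) * (D / m ^ e) := mul_lt_mul_of_pos_right h.2 hp
      _ = ((i : ℝ) + 1) / m ^ e * D := by ring

theorem dv_pos {M : ℕ} (hM : 1 ≤ M) {e i u : ℕ} (h : i / M ^ e = u) :
    (u : ℝ) ≤ (i : ℝ) / (M : ℝ) ^ e ∧ ((i : ℝ) + 1) / (M : ℝ) ^ e ≤ u + 1 := by
  have hp : 0 < M ^ e := pow_pos hM e
  have hpr : (0 : ℝ) < (M : ℝ) ^ e := by exact_mod_cast hp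
  rw [le_div_iff₀ hpr, div_le_iff₀ hpr]
  constructor
  · have : u * M ^ e ≤ i := by rw [← h]; exact Nat.div_mul_le_self _ _
    exact_mod_cast this
  · have : i + 1 ≤ (u + 1) * M ^ e := by
      exact (Nat.div_lt_iff_lt_mul hp).1 (by omega)
    exact_mod_cast this

theorem mem_arc' {β : ℝ} {S : Finset (ℤ × ℤ)} {N j : ℕ} {k : ℤ × ℤ} :
    k ∈ arc β S N j ↔ k ∈ S ∧ ⌊(N : ℝ) * ((tt β k + 6) / 12)⌋₊ = j := by
  classical
  unfold arc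
  rw [Finset.mem_filter]

/-- two separated arcs -/
theorem sep_gap {i i' : ℕ} (h : sep i i') {w x x' : ℝ} (hw : 0 < w) (h1 : (i : ℝ) * w ≤ x) (h2 : x < ((i : ℝ) + 1) * w)
    (h1' : (i' : ℝ) * w ≤ x') (h2' : x' < ((i' : ℝ) + 1) * w) : w ≤ |x - x'| := by
  rcases h with h | h
  · have h3 : ((i : ℝ) + 2) ≤ i' := by exact_mod_cast h
    have h4 : ((i : ℝ) + 2) * w ≤ i' * w := mul_le_mul_of_nonneg_right h3 hw.le
    refine le_trans ?_ (neg_le_abs _)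
    linarith
  · have h3 : ((i' : ℝ) + 2) ≤ i := by exact_mod_cast h
    have h4 : ((i' : ℝ) + 2) * w ≤ i * w := mul_le_mul_of_nonneg_right h3 hw.le
    refine le_trans ?_ (le_abs_self _)
    linarith

/-- conversion of differences of positions -/
theorem sl_abs {δ a b : ℝ} (hδ : |δ| ≤ 1 / 40) (ha : 0 ≤ a) (ha' : a ≤ 12) (hb : 0 ≤ b) (hb' : b ≤ 12) :
    3 / 4 * |a - b| ≤ |sl δ (a - 6) - sl δ (b - 6)| ∧ |sl δ (a - 6) - sl δ (b - 6)| ≤ 7 / 5 * |a - b| ∧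
    0 ≤ (a - b) * (sl δ (a - 6) - sl δ (b - 6)) := by
  have h1 : |a - 6| ≤ 6 := by rw [abs_le]; constructor <;> linarith only [ha, ha']
  have h2 : |b - 6| ≤ 6 := by rw [abs_le]; constructor <;> linarith only [hb, hb']
  rcases le_total b a with h | h
  · obtain ⟨p, q⟩ := sl_diff hδ h1 h2 (by linarith)
    have e : a - 6 - (b - 6) = a - b := by ring
    rw [e] at p q
    have h3 : 0 ≤ a - b := by linarith only [h]
    have h4 : 0 ≤ sl δ (a - 6) - sl δ (b - 6) := by linarith only [h, p]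
    rw [abs_of_nonneg h3, abs_of_nonneg h4]
    exact ⟨p, q, mul_nonneg h3 h4⟩
  · obtain ⟨p, q⟩ := sl_diff hδ h2 h1 (by linarith)
    have e : b - 6 - (a - 6) = b - a := by ring
    rw [e] at p q
    have h3 : a - b ≤ 0 := by linarith only [h]
    have h4 : sl δ (a - 6) - sl δ (b - 6) ≤ 0 := by linarith only [h, p]
    rw [abs_of_nonpos h3, abs_of_nonpos h4]
    exact ⟨by linarith only [p], by linarith only [q], mul_nonneg_of_nonpos_of_nonpos h3 h4⟩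

/-- the linear identity: alternating sums of `u (σ³ + α σ² + γ)`, `σ = tt β k - e` -/
theorem lin12 {β z e α γ : ℝ} {x x' y₁ y₂ y₃ y₄ z₁ z₂ z₃ z₄ z₅ z₆ : ℤ × ℤ}
    (hu : ∀ k ∈ ({x, x', y₁, y₂, y₃, y₄, z₁, z₂, z₃, z₄, z₅, z₆} : Finset (ℤ × ℤ)), 0 < uu β k)
    (hsum : x - x' + y₁ + y₂ - y₃ - y₄ + z₁ + z₂ + z₃ - z₄ - z₅ - z₆ = 0) :
    sg (fun k => uu β k * ((tt β k - e) ^ 3 + α * (tt β k - e) ^ 2 + γ)) x x' y₁ y₂ y₃ y₄ z₁ z₂ z₃ z₄ z₅ z₆ =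
      sg (p3 β z) x x' y₁ y₂ y₃ y₄ z₁ z₂ z₃ z₄ z₅ z₆ +
        (α - 3 * (e - z)) * sg (p2 β z) x x' y₁ y₂ y₃ y₄ z₁ z₂ z₃ z₄ z₅ z₆ := by
  obtain ⟨f, hf⟩ : ∃ f, f = e - z := ⟨_, rfl⟩
  have key : ∀ k, 0 < uu β k → uu β k * ((tt β k - e) ^ 3 + α * (tt β k - e) ^ 2 + γ) =
      p3 β z k + (α - 3 * f) * p2 β z k + (3 * f ^ 2 - 2 * α * f) * (k.2 - z * uu β k) +
        (-f ^ 3 + α * f ^ 2 + γ) * uu β k := by
    intro k hk
    have e1 : (k.2 : ℝ) = tt β k * uu β k := by rw [tt]; field_simp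
    rw [e1, p3, p2, hf]
    ring
  have hs1 : (x.1 : ℝ) - x'.1 + y₁.1 + y₂.1 - y₃.1 - y₄.1 + z₁.1 + z₂.1 + z₃.1 - z₄.1 - z₅.1 - z₆.1 = 0 := by
    have := congrArg Prod.fst hsum
    simp only [Prod.fst_sub, Prod.fst_add, Prod.fst_zero] at this
    exact_mod_cast this
  have hs2 : (x.2 : ℝ) - x'.2 + y₁.2 + y₂.2 - y₃.2 - y₄.2 + z₁.2 + z₂.2 + z₃.2 - z₄.2 - z₅.2 - z₆.2 = 0 := by
    have := congrArg Prod.snd hsum
    simp only [Prod.snd_sub, Prod.snd_add, Prod.snd_zero] at this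
    exact_mod_cast this
  rw [← hf]
  simp only [sg]
  rw [key x (hu x (by simp)), key x' (hu x' (by simp)), key y₁ (hu y₁ (by simp)), key y₂ (hu y₂ (by simp)),
    key y₃ (hu y₃ (by simp)), key y₄ (hu y₄ (by simp)), key z₁ (hu z₁ (by simp)), key z₂ (hu z₂ (by simp)),
    key z₃ (hu z₃ (by simp)), key z₄ (hu z₄ (by simp)), key z₅ (hu z₅ (by simp)), key z₆ (hu z₆ (by simp))]
  have hs3 : uu β x - uu β x' + uu β y₁ + uu β y₂ - uu β y₃ - uu β y₄ + uu β z₁ + uu β z₂ + uu β z₃ - uu β z₄ - uu β z₅ - uu β z₆ = 0 := by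
    simp only [uu]
    linear_combination hs1 + β * hs2
  linear_combination (3 * f ^ 2 - 2 * α * f) * (hs2 - z * hs3) + (-f ^ 3 + α * f ^ 2 + γ) * hs3

/-- the conclusion -/
theorem fin12 {X P₂ P₃ a tot L : ℝ} (h : tot = P₃ + a * P₂) (ha : |a| ≤ 199) (hL : 200 / X ≤ L) (ht : L ≤ |tot|) :
    1 / X ≤ |P₂| ∨ 1 / X ≤ |P₃| := by
  by_contra hcon
  push Not at hcon
  obtain ⟨h1, h2⟩ := hcon
  have h3 : |tot| ≤ |P₃| + |a| * |P₂| := by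
    rw [h]
    have := abs_add_le P₃ (a * P₂)
    rwa [abs_mul] at this
  have h4 : |a| * |P₂| ≤ 199 * (1 / X) := mul_le_mul ha h1.le (abs_nonneg _) (by norm_num)
  have h5 : 200 / X = 200 * (1 / X) := by ring
  rw [h5] at hL
  linarith

/-- points of the arc `J` -/
theorem j_pt {δ θ t w : ℝ} (hδ : |δ| ≤ 1 / 40) (ht : 0 ≤ t) (hθ : θ ≤ 12) (h1 : t ≤ θ) (h2 : θ < t + w) :
    0 ≤ sl δ (θ - 6) - sl δ (t - 6) ∧ sl δ (θ - 6) - sl δ (t - 6) ≤ 7 / 5 * w := by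
  have h3 : |θ - 6| ≤ 6 := by rw [abs_le]; constructor <;> linarith
  have h4 : |t - 6| ≤ 6 := by rw [abs_le]; constructor <;> linarith
  obtain ⟨p, q⟩ := sl_diff hδ h3 h4 (by linarith)
  constructor
  · linarith only [h1, p]
  · linarith only [h2, q]

/-- First relation: ten points in `J`. -/
theorem geo1 {M N b c i i' j : ℕ} {β₀ β₁ z H X η : ℝ} {B : Finset (ℤ × ℤ)} (hM : 100000 ≤ M) (hN : 1 ≤ N) (hcb : c + 1 ≤ 3 * b)
    (hH : 0 < H) (hB : InReg β₀ H B) (hβ : |β₁ - β₀| ≤ 1 / 40) (hz : |z| ≤ 40)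
    (hη : η ≤ (1 / (M : ℝ)) ^ (3 * b + 3)) (hX : 200 / X ≤ H * (12 / (N * (M : ℝ) ^ (1 + b))) ^ 3)
    (h1 : j / M ^ (b + 1) = i / M ^ (c + 1)) (h2 : i / M ^ c = i' / M ^ c) (h3 : sep (i / M ^ c) (j / M ^ b))
    (h4 : sep i i') {x x' y₁ y₂ y₃ y₄ z₁ z₂ z₃ z₄ z₅ z₆ : ℤ × ℤ}
    (hx : x ∈ arc β₀ B (N * M ^ (1 + c)) i) (hx' : x' ∈ arc β₀ B (N * M ^ (1 + c)) i')
    (hy₁ : y₁ ∈ arc β₀ B (N * M ^ (1 + b)) j) (hy₂ : y₂ ∈ arc β₀ B (N * M ^ (1 + b)) j)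
    (hy₃ : y₃ ∈ arc β₀ B (N * M ^ (1 + b)) j) (hy₄ : y₄ ∈ arc β₀ B (N * M ^ (1 + b)) j)
    (hz₁ : z₁ ∈ arc β₀ B (N * M ^ (1 + b)) j) (hz₂ : z₂ ∈ arc β₀ B (N * M ^ (1 + b)) j)
    (hz₃ : z₃ ∈ arc β₀ B (N * M ^ (1 + b)) j) (hz₄ : z₄ ∈ arc β₀ B (N * M ^ (1 + b)) j)
    (hz₅ : z₅ ∈ arc β₀ B (N * M ^ (1 + b)) j) (hz₆ : z₆ ∈ arc β₀ B (N * M ^ (1 + b)) j)
    (hsl : |uu β₁ x - uu β₁ x'| ≤ η * H)
    (hsum : x - x' + y₁ + y₂ - y₃ - y₄ + z₁ + z₂ + z₃ - z₄ - z₅ - z₆ = 0) :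
    1 / X ≤ |sg (p2 β₁ z) x x' y₁ y₂ y₃ y₄ z₁ z₂ z₃ z₄ z₅ z₆| ∨
      1 / X ≤ |sg (p3 β₁ z) x x' y₁ y₂ y₃ y₄ z₁ z₂ z₃ z₄ z₅ z₆| := by
  have hm1 : (100000 : ℝ) ≤ (M : ℝ) := by exact_mod_cast hM
  have hM1 : 1 ≤ M := by omega
  have hN0 : (0 : ℝ) < N := by exact_mod_cast hN
  obtain ⟨m, hm⟩ : ∃ m : ℝ, m = (M : ℝ) := ⟨_, rfl⟩
  have hm0 : 0 < m := by rw [hm]; linarith only [hm1]
  have hmge : 100000 ≤ m := by rw [hm]; exact hm1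
  have hm1' : 1 ≤ m := by linarith only [hm1, hm]
  obtain ⟨D, hD⟩ : ∃ D : ℝ, D = 12 / (N * m) := ⟨_, rfl⟩
  have hD0 : 0 < D := by rw [hD]; positivity
  obtain ⟨δ, hδd⟩ : ∃ δ, δ = β₁ - β₀ := ⟨_, rfl⟩
  have hδ : |δ| ≤ 1 / 40 := by rw [hδd]; exact hβ
  -- positions
  have pos : ∀ {e a : ℕ} {k : ℤ × ℤ}, k ∈ arc β₀ B (N * M ^ (1 + e)) a →
      (H / 10 ≤ uu β₁ k ∧ uu β₁ k ≤ 18 * H) ∧ tt β₁ k = sl δ ((tt β₀ k + 6) - 6) ∧ (0 ≤ tt β₀ k + 6 ∧ tt β₀ k + 6 ≤ 12) ∧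
      (a : ℝ) / m ^ e * D ≤ tt β₀ k + 6 ∧ tt β₀ k + 6 < ((a : ℝ) + 1) / m ^ e * D := by
    intro e a k hk
    rw [mem_arc'] at hk
    obtain ⟨hk1, hk2⟩ := hk
    obtain ⟨p1, p2, p3, p4⟩ := reg_pt hH hB hβ hk1
    rw [abs_le] at p3
    have q0 : 0 ≤ tt β₀ k + 6 := by linarith only [p3.1]
    refine ⟨⟨p1, p2⟩, ?_, ⟨q0, by linarith only [p3.2]⟩, ?_⟩
    · rw [p4, hδd, add_sub_cancel_right]
    · refine fl_pos hD0 hm0 (K := ((N * M ^ (1 + e) : ℕ) : ℝ)) q0 ?_ hk2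
      rw [hD, hm, pow_add]
      push_cast
      field_simp
  obtain ⟨⟨xu1, xu2⟩, xs, ⟨xt0, xt1⟩, f1, f2⟩ := pos hx
  obtain ⟨⟨xu1', xu2'⟩, xs', ⟨xt0', xt1'⟩, f1', f2'⟩ := pos hx'
  -- the integer data
  obtain ⟨u, hu⟩ : ∃ u, i / M ^ c = u := ⟨_, rfl⟩
  obtain ⟨v, hv⟩ : ∃ v, j / M ^ b = v := ⟨_, rfl⟩
  obtain ⟨q, hq⟩ : ∃ q, i / M ^ (c + 1) = q := ⟨_, rfl⟩
  have hq' : i' / M ^ (c + 1) = q := by
    rw [pow_succ, ← Nat.div_div_eq_div_mul, ← h2, Nat.div_div_eq_div_mul, ← pow_succ, hq]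
  have hqj : j / M ^ (b + 1) = q := h1.trans hq
  have hu' : i' / M ^ c = u := h2.symm.trans hu
  rw [hu, hv] at h3
  obtain ⟨u1, u2⟩ := dv_pos hM1 hu
  obtain ⟨u1', u2'⟩ := dv_pos hM1 hu'
  obtain ⟨v1, v2⟩ := dv_pos hM1 hv
  obtain ⟨q1, q2⟩ := dv_pos hM1 hq
  obtain ⟨q1', q2'⟩ := dv_pos hM1 hq'
  obtain ⟨q1j, q2j⟩ := dv_pos hM1 hqj
  rw [← hm] at u1 u2 u1' u2' v1 v2 q1 q2 q1' q2' q1j q2j
  -- division by the next power
  have hdiv : ∀ (a : ℝ) (e : ℕ), a / m ^ e = a / m ^ (e + 1) * m := by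
    intro a e
    rw [pow_succ]
    field_simp
  have w1 : q * m ≤ i / m ^ c := by rw [hdiv]; exact mul_le_mul_of_nonneg_right q1 hm0.le
  have w2 : ((i : ℝ) + 1) / m ^ c ≤ (q + 1) * m := by
    rw [hdiv]; exact mul_le_mul_of_nonneg_right q2 hm0.le
  have w1' : q * m ≤ i' / m ^ c := by rw [hdiv]; exact mul_le_mul_of_nonneg_right q1' hm0.le
  have w2' : ((i' : ℝ) + 1) / m ^ c ≤ (q + 1) * m := by
    rw [hdiv]; exact mul_le_mul_of_nonneg_right q2' hm0.le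
  have w1j : q * m ≤ j / m ^ b := by rw [hdiv]; exact mul_le_mul_of_nonneg_right q1j hm0.le
  have w2j : ((j : ℝ) + 1) / m ^ b ≤ (q + 1) * m := by
    rw [hdiv]; exact mul_le_mul_of_nonneg_right q2j hm0.le
  obtain ⟨ω, hω⟩ : ∃ ω, ω = D / m ^ b := ⟨_, rfl⟩
  have hω0 : 0 < ω := by rw [hω]; positivity
  obtain ⟨t, ht⟩ : ∃ t, t = (j : ℝ) / m ^ b * D := ⟨_, rfl⟩
  have ht0 : 0 ≤ t := by rw [ht]; positivity
  have hjt : ((j : ℝ) + 1) / m ^ b * D = t + ω := by rw [ht, hω]; ring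
  obtain ⟨e₀, he₀⟩ : ∃ e₀, e₀ = sl δ (t - 6) := ⟨_, rfl⟩
  -- the points of `J`
  have hJ : ∀ {y : ℤ × ℤ}, y ∈ arc β₀ B (N * M ^ (1 + b)) j → 0 < uu β₁ y ∧ t ≤ 12 ∧
      |uu β₁ y * ((tt β₁ y - e₀) ^ 3 + 0 * (tt β₁ y - e₀) ^ 2 + 0)| ≤ 50 * (H * ω ^ 3) := by
    intro y hy
    obtain ⟨⟨yu1, yu2⟩, ys, ⟨yt0, yt1⟩, g1, g2⟩ := pos hy
    rw [← ht] at g1
    rw [hjt] at g2
    obtain ⟨r1, r2⟩ := j_pt hδ ht0 yt1 g1 g2
    rw [← ys, ← he₀] at r1 r2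
    have hup : 0 < uu β₁ y := by linarith only [hH, yu1]
    refine ⟨hup, by linarith only [yt1, g1], ?_⟩
    rw [zero_mul, add_zero, add_zero, abs_mul, abs_of_pos hup, abs_of_nonneg (by positivity)]
    have h5 : (tt β₁ y - e₀) ^ 3 ≤ (7 / 5 * ω) ^ 3 := pow_le_pow_left₀ r1 r2 3
    calc uu β₁ y * (tt β₁ y - e₀) ^ 3 ≤ 18 * H * (7 / 5 * ω) ^ 3 := mul_le_mul yu2 h5 (by positivity) (by positivity)
      _ ≤ 50 * (H * ω ^ 3) := by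
        have : 0 < H * ω ^ 3 := by positivity
        nlinarith only [this]
  obtain ⟨uy₁, ht12, by₁⟩ := hJ hy₁
  obtain ⟨uy₂, -, by₂⟩ := hJ hy₂
  obtain ⟨uy₃, -, by₃⟩ := hJ hy₃
  obtain ⟨uy₄, -, by₄⟩ := hJ hy₄
  obtain ⟨uz₁, -, bz₁⟩ := hJ hz₁
  obtain ⟨uz₂, -, bz₂⟩ := hJ hz₂
  obtain ⟨uz₃, -, bz₃⟩ := hJ hz₃
  obtain ⟨uz₄, -, bz₄⟩ := hJ hz₄
  obtain ⟨uz₅, -, bz₅⟩ := hJ hz₅
  obtain ⟨uz₆, -, bz₆⟩ := hJ hz₆
  have ux : 0 < uu β₁ x := by linarith only [hH, xu1]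
  have ux' : 0 < uu β₁ x' := by linarith only [hH, xu1']
  -- positions relative to `t`
  have hωD : 0 ≤ ω := hω0.le
  have hθ1 : q * m * D ≤ tt β₀ x + 6 := (mul_le_mul_of_nonneg_right w1 hD0.le).trans f1
  have hθ2 : tt β₀ x + 6 ≤ (q + 1) * m * D := f2.le.trans (mul_le_mul_of_nonneg_right w2 hD0.le)
  have hθ1' : q * m * D ≤ tt β₀ x' + 6 := (mul_le_mul_of_nonneg_right w1' hD0.le).trans f1'
  have hθ2' : tt β₀ x' + 6 ≤ (q + 1) * m * D := f2'.le.trans (mul_le_mul_of_nonneg_right w2' hD0.le)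
  have hqq : (q + 1) * m * D = q * m * D + m * D := by ring
  have ht1 : q * m * D ≤ t := by rw [ht]; exact mul_le_mul_of_nonneg_right w1j hD0.le
  have ht2 : t ≤ (q + 1) * m * D := by
    have : t + ω ≤ (q + 1) * m * D := by
      rw [← hjt]; exact mul_le_mul_of_nonneg_right w2j hD0.le
    linarith only [hω0, this]
  have hab' : |tt β₀ x' + 6 - t| ≤ m * D := by rw [abs_le]; constructor <;> linarith only [hθ1', ht2, hθ2', ht1]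
  have hv1 : v * D ≤ t := by rw [ht]; exact mul_le_mul_of_nonneg_right v1 hD0.le
  have hv2 : t + ω ≤ (v + 1) * D := by
    rw [← hjt]; exact mul_le_mul_of_nonneg_right v2 hD0.le
  have hu1 : u * D ≤ tt β₀ x + 6 := (mul_le_mul_of_nonneg_right u1 hD0.le).trans f1
  have hu2 : tt β₀ x + 6 < (u + 1) * D := lt_of_lt_of_le f2 (mul_le_mul_of_nonneg_right u2 hD0.le)
  have hu1' : u * D ≤ tt β₀ x' + 6 := (mul_le_mul_of_nonneg_right u1' hD0.le).trans f1'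
  have hu2' : tt β₀ x' + 6 < (u + 1) * D := lt_of_lt_of_le f2' (mul_le_mul_of_nonneg_right u2' hD0.le)
  have gx : D ≤ |tt β₀ x + 6 - t| := sep_gap h3 hD0 hu1 hu2 hv1 (by linarith only [hω0, hv2])
  have gx' : D ≤ |tt β₀ x' + 6 - t| := sep_gap h3 hD0 hu1' hu2' hv1 (by linarith only [hω0, hv2])
  have gxx : D / m ^ c ≤ |(tt β₀ x + 6) - (tt β₀ x' + 6)| := by
    refine sep_gap h4 (by positivity) ?_ ?_ ?_ ?_
    · calc (i : ℝ) * (D / m ^ c) = i / m ^ c * D := by ring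
        _ ≤ _ := f1
    · calc tt β₀ x + 6 < _ := f2
        _ = ((i : ℝ) + 1) * (D / m ^ c) := by ring
    · calc (i' : ℝ) * (D / m ^ c) = i' / m ^ c * D := by ring
        _ ≤ _ := f1'
    · calc tt β₀ x' + 6 < _ := f2'
        _ = ((i' : ℝ) + 1) * (D / m ^ c) := by ring
  have same : 0 < (tt β₀ x + 6 - t) * (tt β₀ x' + 6 - t) := by
    rcases h3 with h | h
    · have h5 : (u : ℝ) + 2 ≤ v := by exact_mod_cast h
      have h6 : ((u : ℝ) + 2) * D ≤ v * D := mul_le_mul_of_nonneg_right h5 hD0.le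
      exact mul_pos_of_neg_of_neg (by linarith only [hD0, hv1, hu2, h6]) (by linarith only [hD0, hv1, hu2', h6])
    · have h5 : (v : ℝ) + 2 ≤ u := by exact_mod_cast h
      have h6 : ((v : ℝ) + 2) * D ≤ u * D := mul_le_mul_of_nonneg_right h5 hD0.le
      exact mul_pos (by linarith only [hD0, hω0, hv2, hu1, h6]) (by linarith only [hD0, hω0, hv2, hu1', h6])
  -- conversion
  obtain ⟨s1, s2, s3⟩ := sl_abs hδ xt0 xt1 ht0 ht12
  obtain ⟨s1', s2', s3'⟩ := sl_abs hδ xt0' xt1' ht0 ht12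
  obtain ⟨s4, -, -⟩ := sl_abs hδ xt0 xt1 xt0' xt1'
  rw [← xs, ← he₀] at s1 s2 s3
  rw [← xs', ← he₀] at s1' s2' s3'
  rw [← xs, ← xs'] at s4
  have c1 : 3 / 4 * D ≤ |tt β₁ x - e₀| := by linarith only [gx, s1]
  have c1' : 3 / 4 * D ≤ |tt β₁ x' - e₀| := by linarith only [gx', s1']
  have c2 : |tt β₁ x' - e₀| ≤ 7 / 5 * (m * D) := by linarith only [hab', s2']
  have c3 : 3 / 4 * (D / m ^ c) ≤ |(tt β₁ x - e₀) - (tt β₁ x' - e₀)| := by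
    rw [sub_sub_sub_cancel_right]
    linarith only [gxx, s4]
  have c4 : 0 < (tt β₁ x - e₀) * (tt β₁ x' - e₀) := by
    have h5 : 0 ≤ ((tt β₀ x + 6 - t) * (tt β₀ x' + 6 - t)) * ((tt β₁ x - e₀) * (tt β₁ x' - e₀)) := by
      have := mul_nonneg s3 s3'
      calc (0 : ℝ) ≤ _ := this
        _ = _ := by ring
    have h6 : 0 ≤ (tt β₁ x - e₀) * (tt β₁ x' - e₀) := nonneg_of_mul_nonneg_right h5 same
    have h7 : (tt β₁ x - e₀) * (tt β₁ x' - e₀) ≠ 0 := by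
      apply mul_ne_zero
      · intro h8
        rw [h8, abs_zero] at c1
        linarith only [hD0, c1]
      · intro h8
        rw [h8, abs_zero] at c1'
        linarith only [hD0, c1']
    exact lt_of_le_of_ne h6 (Ne.symm h7)
  have c5 : m * ω ^ 3 ≤ D / m ^ c * D ^ 2 := by
    have h5 : m ^ (c + 1) ≤ (m ^ b) ^ 3 := by
      rw [← pow_mul, mul_comm b 3]
      exact pow_le_pow_right₀ hm1' hcb
    have hmc : 0 < m ^ c := pow_pos hm0 c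
    have h6 : m / (m ^ b) ^ 3 ≤ 1 / m ^ c := by
      rw [div_le_div_iff₀ (by positivity) hmc, one_mul, mul_comm, ← pow_succ]
      exact h5
    calc m * ω ^ 3 = m / (m ^ b) ^ 3 * D ^ 3 := by rw [hω, div_pow]; ring
      _ ≤ 1 / m ^ c * D ^ 3 := mul_le_mul_of_nonneg_right h6 (by positivity)
      _ = D / m ^ c * D ^ 2 := by ring
  have c6 : η * (m * D) ^ 3 ≤ ω ^ 3 := by
    have e1 : (1 / m) ^ (3 * b + 3) * m ^ 3 = 1 / (m ^ b) ^ 3 := by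
      rw [pow_add, one_div, inv_pow, inv_pow, ← pow_mul, mul_comm b 3]
      field_simp
    have e2 : η * m ^ 3 ≤ 1 / (m ^ b) ^ 3 := by
      rw [← e1]
      rw [← hm] at hη
      exact mul_le_mul_of_nonneg_right hη (by positivity)
    calc η * (m * D) ^ 3 = (η * m ^ 3) * D ^ 3 := by ring
      _ ≤ (1 / (m ^ b) ^ 3) * D ^ 3 := mul_le_mul_of_nonneg_right e2 (by positivity)
      _ = ω ^ 3 := by rw [hω, div_pow]; ring
  -- the identity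
  have hlin := lin12 (β := β₁) (z := z) (e := e₀) (α := 0) (γ := 0) (x := x) (x' := x') (y₁ := y₁) (y₂ := y₂) (y₃ := y₃)
    (y₄ := y₄) (z₁ := z₁) (z₂ := z₂) (z₃ := z₃) (z₄ := z₄) (z₅ := z₅) (z₆ := z₆) (by
      intro k hk
      simp only [Finset.mem_insert, Finset.mem_singleton] at hk
      rcases hk with rfl | rfl | rfl | rfl | rfl | rfl | rfl | rfl | rfl | rfl | rfl | rfl <;> assumption) hsum
  refine fin12 hlin ?_ (L := H * ω ^ 3) ?_ ?_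
  · -- the coefficient
    have h5 : |e₀| ≤ 8 := by
      rw [he₀]
      apply sl_bd hδ
      rw [abs_le]
      constructor <;> linarith only [ht0, ht12]
    have h6 : |0 - 3 * (e₀ - z)| ≤ 3 * (|e₀| + |z|) := by
      have h7 := abs_add_le e₀ (-z)
      rw [abs_neg, ← sub_eq_add_neg] at h7
      have h8 : (0 : ℝ) - 3 * (e₀ - z) = -(3 * (e₀ - z)) := by ring
      rw [h8, abs_neg, abs_mul, abs_of_pos (by norm_num : (0 : ℝ) < 3)]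
      linarith only [h7]
    linarith only [hz, h5, h6]
  · refine hX.trans (le_of_eq ?_)
    rw [hω, hD, hm, pow_add, pow_one]
    congr 2
    field_simp
  · set F : ℤ × ℤ → ℝ := fun k => uu β₁ k * ((tt β₁ k - e₀) ^ 3 + 0 * (tt β₁ k - e₀) ^ 2 + 0) with hF
    have hR : |F y₁ + F y₂ - F y₃ - F y₄ + F z₁ + F z₂ + F z₃ - F z₄ - F z₅ - F z₆| ≤ 500 * (H * ω ^ 3) := by
      simp only [hF]
      rw [abs_le] at by₁ by₂ by₃ by₄ bz₁ bz₂ bz₃ bz₄ bz₅ bz₆ ⊢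
      constructor
      · linarith only [by₁.1, by₂.1, by₃.2, by₄.2, bz₁.1, bz₂.1, bz₃.1, bz₄.2, bz₅.2, bz₆.2]
      · linarith only [by₁.2, by₂.2, by₃.1, by₄.1, bz₁.2, bz₂.2, bz₃.2, bz₄.1, bz₅.1, bz₆.1]
    have := real1 (H := H) (m := m) (D := D) (ω := ω) (g := D / m ^ c) (η := η) (u := uu β₁ x) (u' := uu β₁ x')
      (σ := tt β₁ x - e₀) (σ' := tt β₁ x' - e₀) hH (by linarith only [hm1, hm]) hD0 hω0 xu1 hsl c1 c1' c4 c2 (by positivity) c3 c5 c6 hR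
    refine this.trans (le_of_eq ?_)
    congr 1
    simp only [sg, hF]
    ring

end Pool.Agent.Helper78.CE
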