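import Pool.Agent.Helper92.GC.Defs
import Pool.Agent.Helper78.CD.Defs

/-!
# CE (helper78): the concrete cubic system (project D3, WP2), definitions

For a frequency `k` let `u = uu β k`, `s = tt β k - z` (`z` a real centre). The vector `(u, u s, u s², u s³)` is a real linear image of `(k₁, k₂, p2 β z k, p3 β z k)`; the sums are
`f(c, R, Z) = ∑ a_k ee (k · c + R u s² + Z u s³)` with the measure `dc · v(R) dR · w(Z) dZ`, `v`, `w` with Fourier transforms supported in `(-1/X, 1/X)` (`IsWt X`).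
-/

open MeasureTheory Real Set Filter Topology

set_option autoImplicit false

namespace Pool.Agent.Helper78.CE

open Pool.Agent.Helper22.AE
open Pool.Agent.Helper92.GC

/-- the phase of second order, centred at `z` -/
noncomputable def p2 (β z : ℝ) (k : ℤ × ℤ) : ℝ := uu β k * (tt β k - z) ^ 2

/-- the phase of third order, centred at `z` -/
noncomputable def p3 (β z : ℝ) (k : ℤ × ℤ) : ℝ := uu β k * (tt β k - z) ^ 3

/-- the exponential sum with two phases in the variables `(c, (R, Z))` -/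
noncomputable def hs (S : Finset (ℤ × ℤ)) (a : ℤ × ℤ → ℂ) (f g : ℤ × ℤ → ℝ) (q : (ℝ × ℝ) × (ℝ × ℝ)) : ℂ :=
  ∑ k ∈ S, a k * ee (dt k q.1 + q.2.1 * f k + q.2.2 * g k)

/-- the measure `dc · v(R) dR · w(Z) dZ` on `[0,1]² × ℝ²` -/
noncomputable def mu2 (v w : ℝ → ℝ) : Measure ((ℝ × ℝ) × (ℝ × ℝ)) :=
  (volume.restrict Tq).prod ((volume.withDensity fun R => ENNReal.ofReal (v R)).prod (volume.withDensity fun Z => ENNReal.ofReal (w Z)))

/-- the large region: `H/8 ≤ u ≤ 16 H`, `|t| ≤ 5` -/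
def InReg (β H : ℝ) (B : Finset (ℤ × ℤ)) : Prop :=
  ∀ k ∈ B, H / 8 ≤ uu β k ∧ uu β k ≤ 16 * H ∧ |(k.2 : ℝ)| ≤ 5 * uu β k

end Pool.Agent.Helper78.CE
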