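import Pool.Agent.Helper78.CE.B3

/-!
# CE-B4: cubic transversality, second relation (`geo2`)
-/

open MeasureTheory Real Set Filter Topology

set_option autoImplicit false

namespace Pool.Agent.Helper78.CE

open Pool.Agent.Helper22.AE
open Pool.Agent.Helper92.GC
open Pool.Agent.Helper22.AC (sep)

/-- sizes of `u a² (a + (3/2) T)` -/
theorem k_bd {H u a T ω D : ℝ} (hH : 0 < H) (hu : 0 < u) (hu' : u ≤ 18 * H) (ha : 0 ≤ a) (ha' : a ≤ 7 / 5 * ω) (hωD : ω ≤ D)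
    (hT : 3 / 4 * D ≤ |T|) (c : ℝ) (hc : |c| ≤ 3 / 2) : |u * (a ^ 2 * (a + c * T))| ≤ 120 * (H * ω ^ 2 * |T|) := by
  have hω : 0 ≤ ω := by linarith only [ha, ha']
  have hT0 : 0 ≤ |T| := abs_nonneg _
  rw [abs_mul, abs_mul, abs_of_pos hu, abs_of_nonneg (by positivity : (0 : ℝ) ≤ a ^ 2)]
  have h1 : a ^ 2 ≤ 49 / 25 * ω ^ 2 := by
    have := pow_le_pow_left₀ ha ha' 2
    have e : (7 / 5 * ω) ^ 2 = 49 / 25 * ω ^ 2 := by ring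
    rwa [e] at this
  have h2 : |a + c * T| ≤ 101 / 30 * |T| := by
    have h3 := abs_add_le a (c * T)
    rw [abs_mul, abs_of_nonneg ha] at h3
    have h4 : |c| * |T| ≤ 3 / 2 * |T| := mul_le_mul_of_nonneg_right hc hT0
    linarith only [ha', hωD, hT, h3, h4]
  have h3 : a ^ 2 * |a + c * T| ≤ 49 / 25 * ω ^ 2 * (101 / 30 * |T|) := mul_le_mul h1 h2 (abs_nonneg _) (by positivity)
  have h4 : u * (a ^ 2 * |a + c * T|) ≤ 18 * H * (49 / 25 * ω ^ 2 * (101 / 30 * |T|)) :=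
    mul_le_mul hu' h3 (by positivity) (by positivity)
  have h5 : 0 ≤ H * ω ^ 2 * |T| := by positivity
  nlinarith only [h4, h5]

set_option maxHeartbeats 8000000 in
/-- Second relation: four points in `K`, six in `J`. -/
theorem geo2 {M N b e p q i i' j k : ℕ} {β₀ β₁ z H X η : ℝ} {B : Finset (ℤ × ℤ)} (hM : 100000 ≤ M) (hN : 1 ≤ N) (hqp : q + 1 ≤ 2 * p)
    (hpb : e + 1 + p ≤ b) (hH : 0 < H) (hB : InReg β₀ H B) (hβ : |β₁ - β₀| ≤ 1 / 40) (hz : |z| ≤ 40)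
    (hη : η ≤ (1 / (M : ℝ)) ^ (2 * b + 3)) (hX : 200 / X ≤ H * (12 / (N * (M : ℝ) ^ (1 + b))) ^ 3)
    (h1 : j / M ^ (b + 1) = k / M ^ (e + 1 + p + 1)) (h2 : sep (k / M ^ (e + 1 + p)) (j / M ^ b))
    (h3 : k / M ^ (p + 1) = i / M ^ (q + 1)) (h4 : i / M ^ q = i' / M ^ q) (h5 : sep (i / M ^ q) (k / M ^ p)) (h6 : sep i i')
    {x x' y₁ y₂ y₃ y₄ z₁ z₂ z₃ z₄ z₅ z₆ : ℤ × ℤ}
    (hx : x ∈ arc β₀ B (N * M ^ (1 + (e + 1 + q))) i) (hx' : x' ∈ arc β₀ B (N * M ^ (1 + (e + 1 + q))) i')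
    (hy₁ : y₁ ∈ arc β₀ B (N * M ^ (1 + (e + 1 + p))) k) (hy₂ : y₂ ∈ arc β₀ B (N * M ^ (1 + (e + 1 + p))) k)
    (hy₃ : y₃ ∈ arc β₀ B (N * M ^ (1 + (e + 1 + p))) k) (hy₄ : y₄ ∈ arc β₀ B (N * M ^ (1 + (e + 1 + p))) k)
    (hz₁ : z₁ ∈ arc β₀ B (N * M ^ (1 + b)) j) (hz₂ : z₂ ∈ arc β₀ B (N * M ^ (1 + b)) j)
    (hz₃ : z₃ ∈ arc β₀ B (N * M ^ (1 + b)) j) (hz₄ : z₄ ∈ arc β₀ B (N * M ^ (1 + b)) j)
    (hz₅ : z₅ ∈ arc β₀ B (N * M ^ (1 + b)) j) (hz₆ : z₆ ∈ arc β₀ B (N * M ^ (1 + b)) j)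
    (hsl : ∀ y ∈ B, ∀ y' ∈ B, |uu β₁ y - uu β₁ y'| ≤ η * H)
    (hsum : x - x' + y₁ + y₂ - y₃ - y₄ + z₁ + z₂ + z₃ - z₄ - z₅ - z₆ = 0) :
    1 / X ≤ |sg (p2 β₁ z) x x' y₁ y₂ y₃ y₄ z₁ z₂ z₃ z₄ z₅ z₆| ∨
      1 / X ≤ |sg (p3 β₁ z) x x' y₁ y₂ y₃ y₄ z₁ z₂ z₃ z₄ z₅ z₆| := by
  have hm1 : (100000 : ℝ) ≤ (M : ℝ) := by exact_mod_cast hM
  have hM1 : 1 ≤ M := by omega
  have hN0 : (0 : ℝ) < N := by exact_mod_cast hN
  obtain ⟨m, hm⟩ : ∃ m : ℝ, m = (M : ℝ) := ⟨_, rfl⟩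
  have hm0 : 0 < m := by rw [hm]; linarith only [hm1]
  have hmge : 100000 ≤ m := by rw [hm]; exact hm1
  have hm1' : 1 ≤ m := by linarith only [hm1, hm]
  obtain ⟨D, hD⟩ : ∃ D : ℝ, D = 12 / (N * m) := ⟨_, rfl⟩
  have hD0 : 0 < D := by rw [hD]; positivity
  obtain ⟨δ, hδd⟩ : ∃ δ, δ = β₁ - β₀ := ⟨_, rfl⟩
  have hδ : |δ| ≤ 1 / 40 := by rw [hδd]; exact hβ
  -- positions
  have pos : ∀ {e a : ℕ} {k : ℤ × ℤ}, k ∈ arc β₀ B (N * M ^ (1 + e)) a →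
      (H / 10 ≤ uu β₁ k ∧ uu β₁ k ≤ 18 * H) ∧ tt β₁ k = sl δ ((tt β₀ k + 6) - 6) ∧ (0 ≤ tt β₀ k + 6 ∧ tt β₀ k + 6 ≤ 12) ∧
      (a : ℝ) / m ^ e * D ≤ tt β₀ k + 6 ∧ tt β₀ k + 6 < ((a : ℝ) + 1) / m ^ e * D := by
    intro e a k hk
    rw [mem_arc'] at hk
    obtain ⟨hk1, hk2⟩ := hk
    obtain ⟨p1, p2, p3, p4⟩ := reg_pt hH hB hβ hk1
    rw [abs_le] at p3
    have q0 : 0 ≤ tt β₀ k + 6 := by linarith only [p3.1]
    refine ⟨⟨p1, p2⟩, ?_, ⟨q0, by linarith only [p3.2]⟩, ?_⟩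
    · rw [p4, hδd, add_sub_cancel_right]
    · refine fl_pos hD0 hm0 (K := ((N * M ^ (1 + e) : ℕ) : ℝ)) q0 ?_ hk2
      rw [hD, hm, pow_add]
      push_cast
      field_simp
  have hsub : ∀ {e a : ℕ} {k : ℤ × ℤ}, k ∈ arc β₀ B (N * M ^ (1 + e)) a → k ∈ B := fun hk => (mem_arc'.1 hk).1
  obtain ⟨⟨xu1, xu2⟩, xs, ⟨xt0, xt1⟩, f1, f2⟩ := pos hx
  obtain ⟨⟨xu1', xu2'⟩, xs', ⟨xt0', xt1'⟩, f1', f2'⟩ := pos hx'
  have ux : 0 < uu β₁ x := by linarith only [hH, xu1]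
  have ux' : 0 < uu β₁ x' := by linarith only [hH, xu1']
  -- the integer data
  obtain ⟨I1, hI1⟩ : ∃ I1, i / M ^ q = I1 := ⟨_, rfl⟩
  have hI1' : i' / M ^ q = I1 := h4.symm.trans hI1
  obtain ⟨K1, hK1⟩ : ∃ K1, k / M ^ p = K1 := ⟨_, rfl⟩
  obtain ⟨Q1, hQ1⟩ : ∃ Q1, k / M ^ (p + 1) = Q1 := ⟨_, rfl⟩
  have hQ1i : i / M ^ (q + 1) = Q1 := h3.symm.trans hQ1
  have hQ1i' : i' / M ^ (q + 1) = Q1 := by
    rw [pow_succ, ← Nat.div_div_eq_div_mul, ← h4, Nat.div_div_eq_div_mul, ← pow_succ, hQ1i]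
  obtain ⟨U, hU⟩ : ∃ U, k / M ^ (e + 1 + p) = U := ⟨_, rfl⟩
  have hUi : i / M ^ (e + 1 + q) = U := by
    have e1 : M ^ (e + 1 + q) = M ^ (q + 1) * M ^ e := by rw [← pow_add]; congr 1; ring
    have e2 : M ^ (e + 1 + p) = M ^ (p + 1) * M ^ e := by rw [← pow_add]; congr 1; ring
    rw [e1, ← Nat.div_div_eq_div_mul, ← h3, Nat.div_div_eq_div_mul, ← e2, hU]
  have hUi' : i' / M ^ (e + 1 + q) = U := by
    have e1 : M ^ (e + 1 + q) = M ^ (q + 1) * M ^ e := by rw [← pow_add]; congr 1; ring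
    rw [e1, ← Nat.div_div_eq_div_mul, hQ1i', ← hQ1i, Nat.div_div_eq_div_mul, ← e1, hUi]
  obtain ⟨V, hV⟩ : ∃ V, j / M ^ b = V := ⟨_, rfl⟩
  obtain ⟨G, hG⟩ : ∃ G, j / M ^ (b + 1) = G := ⟨_, rfl⟩
  have hGk : k / M ^ (e + 1 + p + 1) = G := h1.symm.trans hG
  rw [hU, hV] at h2
  rw [hI1, hK1] at h5
  obtain ⟨a1, a2⟩ := dv_pos hM1 hI1
  obtain ⟨a1', a2'⟩ := dv_pos hM1 hI1'
  obtain ⟨b1, b2⟩ := dv_pos hM1 hK1
  obtain ⟨c1, c2⟩ := dv_pos hM1 hQ1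
  obtain ⟨c1i, c2i⟩ := dv_pos hM1 hQ1i
  obtain ⟨c1i', c2i'⟩ := dv_pos hM1 hQ1i'
  obtain ⟨d1, d2⟩ := dv_pos hM1 hU
  obtain ⟨d1i, d2i⟩ := dv_pos hM1 hUi
  obtain ⟨d1i', d2i'⟩ := dv_pos hM1 hUi'
  obtain ⟨e1, e2⟩ := dv_pos hM1 hV
  obtain ⟨g1, g2⟩ := dv_pos hM1 hG
  obtain ⟨g1k, g2k⟩ := dv_pos hM1 hGk
  rw [← hm] at a1 a2 a1' a2' b1 b2 c1 c2 c1i c2i c1i' c2i' d1 d2 d1i d2i d1i' d2i' e1 e2 g1 g2 g1k g2k
  obtain ⟨dd, hdd⟩ : ∃ dd, dd = D / m ^ (e + 1) := ⟨_, rfl⟩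
  have hdd0 : 0 < dd := by rw [hdd]; positivity
  obtain ⟨ωJ, hωJ⟩ : ∃ ω, ω = D / m ^ b := ⟨_, rfl⟩
  have hωJ0 : 0 < ωJ := by rw [hωJ]; positivity
  obtain ⟨ωK, hωK⟩ : ∃ ω, ω = D / m ^ (e + 1 + p) := ⟨_, rfl⟩
  have hωK0 : 0 < ωK := by rw [hωK]; positivity
  obtain ⟨t, ht⟩ : ∃ t, t = (j : ℝ) / m ^ b * D := ⟨_, rfl⟩
  have ht0 : 0 ≤ t := by rw [ht]; positivity
  have hjt : ((j : ℝ) + 1) / m ^ b * D = t + ωJ := by rw [ht, hωJ]; ring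
  obtain ⟨s, hs⟩ : ∃ s, s = (k : ℝ) / m ^ (e + 1 + p) * D := ⟨_, rfl⟩
  have hs0 : 0 ≤ s := by rw [hs]; positivity
  have hks : ((k : ℝ) + 1) / m ^ (e + 1 + p) * D = s + ωK := by rw [hs, hωK]; ring
  -- change of unit
  have conv : ∀ (a : ℝ) (r : ℕ), a / m ^ (e + 1 + r) * D = a / m ^ r * dd := by
    intro a r
    rw [hdd, pow_add]
    field_simp
  have conv1 : ∀ (a : ℝ) (r : ℕ), a / m ^ r = a / m ^ (r + 1) * m := by
    intro a r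
    rw [pow_succ]
    field_simp
  -- level widths `dd`
  have A1 : (I1 : ℝ) * dd ≤ tt β₀ x + 6 := (mul_le_mul_of_nonneg_right a1 hdd0.le).trans (by rw [← conv]; exact f1)
  have A2 : tt β₀ x + 6 < ((I1 : ℝ) + 1) * dd := lt_of_lt_of_le f2 (by rw [conv]; exact mul_le_mul_of_nonneg_right a2 hdd0.le)
  have A1' : (I1 : ℝ) * dd ≤ tt β₀ x' + 6 := (mul_le_mul_of_nonneg_right a1' hdd0.le).trans (by rw [← conv]; exact f1')
  have A2' : tt β₀ x' + 6 < ((I1 : ℝ) + 1) * dd := lt_of_lt_of_le f2' (by rw [conv]; exact mul_le_mul_of_nonneg_right a2' hdd0.le)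
  have B1 : (K1 : ℝ) * dd ≤ s := by rw [hs, conv]; exact mul_le_mul_of_nonneg_right b1 hdd0.le
  have B2 : s + ωK ≤ ((K1 : ℝ) + 1) * dd := by rw [← hks, conv]; exact mul_le_mul_of_nonneg_right b2 hdd0.le
  -- level width `m dd`
  have C1 : (Q1 : ℝ) * m * dd ≤ s := by
    rw [hs, conv, conv1]
    exact mul_le_mul_of_nonneg_right (mul_le_mul_of_nonneg_right c1 hm0.le) hdd0.le
  have C2 : s + ωK ≤ ((Q1 : ℝ) + 1) * m * dd := by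
    rw [← hks, conv, conv1]
    exact mul_le_mul_of_nonneg_right (mul_le_mul_of_nonneg_right c2 hm0.le) hdd0.le
  have C1' : (Q1 : ℝ) * m * dd ≤ tt β₀ x' + 6 := by
    refine le_trans ?_ f1'
    rw [conv, conv1]
    exact mul_le_mul_of_nonneg_right (mul_le_mul_of_nonneg_right c1i' hm0.le) hdd0.le
  have C2' : tt β₀ x' + 6 ≤ ((Q1 : ℝ) + 1) * m * dd := by
    refine f2'.le.trans ?_
    rw [conv, conv1]
    exact mul_le_mul_of_nonneg_right (mul_le_mul_of_nonneg_right c2i' hm0.le) hdd0.le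
  have hQQ : ((Q1 : ℝ) + 1) * m * dd = Q1 * m * dd + m * dd := by ring
  -- level width `D`
  have D1 : (U : ℝ) * D ≤ s := by rw [hs]; exact mul_le_mul_of_nonneg_right d1 hD0.le
  have D2 : s + ωK ≤ ((U : ℝ) + 1) * D := by rw [← hks]; exact mul_le_mul_of_nonneg_right d2 hD0.le
  have D1x : (U : ℝ) * D ≤ tt β₀ x + 6 := (mul_le_mul_of_nonneg_right d1i hD0.le).trans f1
  have D2x : tt β₀ x + 6 < ((U : ℝ) + 1) * D := lt_of_lt_of_le f2 (mul_le_mul_of_nonneg_right d2i hD0.le)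
  have D1x' : (U : ℝ) * D ≤ tt β₀ x' + 6 := (mul_le_mul_of_nonneg_right d1i' hD0.le).trans f1'
  have D2x' : tt β₀ x' + 6 < ((U : ℝ) + 1) * D := lt_of_lt_of_le f2' (mul_le_mul_of_nonneg_right d2i' hD0.le)
  have E1 : (V : ℝ) * D ≤ t := by rw [ht]; exact mul_le_mul_of_nonneg_right e1 hD0.le
  have E2 : t + ωJ ≤ ((V : ℝ) + 1) * D := by rw [← hjt]; exact mul_le_mul_of_nonneg_right e2 hD0.le
  -- level width `m D`
  have G1 : (G : ℝ) * m * D ≤ t := by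
    rw [ht, conv1]
    exact mul_le_mul_of_nonneg_right (mul_le_mul_of_nonneg_right g1 hm0.le) hD0.le
  have G2 : t + ωJ ≤ ((G : ℝ) + 1) * m * D := by
    rw [← hjt, conv1]
    exact mul_le_mul_of_nonneg_right (mul_le_mul_of_nonneg_right g2 hm0.le) hD0.le
  have G1k : (G : ℝ) * m * D ≤ s := by
    rw [hs, conv1]
    exact mul_le_mul_of_nonneg_right (mul_le_mul_of_nonneg_right g1k hm0.le) hD0.le
  have G2k : s + ωK ≤ ((G : ℝ) + 1) * m * D := by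
    rw [← hks, conv1]
    exact mul_le_mul_of_nonneg_right (mul_le_mul_of_nonneg_right g2k hm0.le) hD0.le
  have hGG : ((G : ℝ) + 1) * m * D = G * m * D + m * D := by ring
  -- distances in the coordinate of `β₀`
  have gT : D ≤ |s - t| := sep_gap h2 hD0 D1 (by linarith only [hωK0, D2]) E1 (by linarith only [hωJ0, E2])
  have gT' : |s - t| ≤ m * D := by rw [abs_le]; constructor <;> linarith only [hωJ0, G2, G1k, hωK0, G1, G2k]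
  have gx : D ≤ |tt β₀ x + 6 - t| := sep_gap h2 hD0 D1x D2x E1 (by linarith only [hωJ0, E2])
  have gx' : D ≤ |tt β₀ x' + 6 - t| := sep_gap h2 hD0 D1x' D2x' E1 (by linarith only [hωJ0, E2])
  have gA : dd ≤ |tt β₀ x + 6 - s| := sep_gap h5 hdd0 A1 A2 B1 (by linarith only [hωK0, B2])
  have gB : dd ≤ |tt β₀ x' + 6 - s| := sep_gap h5 hdd0 A1' A2' B1 (by linarith only [hωK0, B2])
  have gB' : |tt β₀ x' + 6 - s| ≤ m * dd := by rw [abs_le]; constructor <;> linarith only [hωK0, C2, C1', C1, C2']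
  have gxx : dd / m ^ q ≤ |(tt β₀ x + 6) - (tt β₀ x' + 6)| := by
    rw [conv] at f1 f2 f1' f2'
    refine sep_gap h6 (by positivity) ?_ ?_ ?_ ?_
    · calc (i : ℝ) * (dd / m ^ q) = i / m ^ q * dd := by ring
        _ ≤ _ := f1
    · calc tt β₀ x + 6 < _ := f2
        _ = ((i : ℝ) + 1) * (dd / m ^ q) := by ring
    · calc (i' : ℝ) * (dd / m ^ q) = i' / m ^ q * dd := by ring
        _ ≤ _ := f1'
    · calc tt β₀ x' + 6 < _ := f2'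
        _ = ((i' : ℝ) + 1) * (dd / m ^ q) := by ring
  have sameσ : 0 < (tt β₀ x + 6 - t) * (tt β₀ x' + 6 - t) := by
    rcases h2 with h | h
    · have h7 : (U : ℝ) + 2 ≤ V := by exact_mod_cast h
      have h8 : ((U : ℝ) + 2) * D ≤ V * D := mul_le_mul_of_nonneg_right h7 hD0.le
      exact mul_pos_of_neg_of_neg (by linarith only [hD0, D2x, E1, h8]) (by linarith only [hD0, D2x', E1, h8])
    · have h7 : (V : ℝ) + 2 ≤ U := by exact_mod_cast h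
      have h8 : ((V : ℝ) + 2) * D ≤ U * D := mul_le_mul_of_nonneg_right h7 hD0.le
      exact mul_pos (by linarith only [hD0, hωJ0, D1x, E2, h8]) (by linarith only [hD0, hωJ0, D1x', E2, h8])
  have sameA : 0 < (tt β₀ x + 6 - s) * (tt β₀ x' + 6 - s) := by
    rcases h5 with h | h
    · have h7 : (I1 : ℝ) + 2 ≤ K1 := by exact_mod_cast h
      have h8 : ((I1 : ℝ) + 2) * dd ≤ K1 * dd := mul_le_mul_of_nonneg_right h7 hdd0.le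
      exact mul_pos_of_neg_of_neg (by linarith only [hdd0, A2, B1, h8]) (by linarith only [hdd0, A2', B1, h8])
    · have h7 : (K1 : ℝ) + 2 ≤ I1 := by exact_mod_cast h
      have h8 : ((K1 : ℝ) + 2) * dd ≤ I1 * dd := mul_le_mul_of_nonneg_right h7 hdd0.le
      exact mul_pos (by linarith only [hdd0, hωK0, A1, B2, h8]) (by linarith only [hdd0, hωK0, A1', B2, h8])
  -- the centres
  obtain ⟨e₀, he₀⟩ : ∃ e₀, e₀ = sl δ (t - 6) := ⟨_, rfl⟩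
  obtain ⟨e₁, he₁⟩ : ∃ e₁, e₁ = sl δ (s - 6) := ⟨_, rfl⟩
  obtain ⟨T, hT⟩ : ∃ T, T = e₁ - e₀ := ⟨_, rfl⟩
  -- upper bounds for the centres
  have ht12 : t ≤ 12 := by
    obtain ⟨-, -, ⟨-, r1⟩, r2, -⟩ := pos hz₁
    rw [← ht] at r2
    linarith only [r1, r2]
  have hs12 : s ≤ 12 := by
    obtain ⟨-, -, ⟨-, r1⟩, r2, -⟩ := pos hy₁
    rw [← hs] at r2
    linarith only [r1, r2]
  -- conversion
  obtain ⟨s1, s2, s3⟩ := sl_abs hδ xt0 xt1 ht0 ht12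
  obtain ⟨s1', s2', s3'⟩ := sl_abs hδ xt0' xt1' ht0 ht12
  obtain ⟨r1, r2, r3⟩ := sl_abs hδ xt0 xt1 hs0 hs12
  obtain ⟨r1', r2', r3'⟩ := sl_abs hδ xt0' xt1' hs0 hs12
  obtain ⟨s4, -, -⟩ := sl_abs hδ xt0 xt1 xt0' xt1'
  obtain ⟨s5, s6, -⟩ := sl_abs hδ hs0 hs12 ht0 ht12
  rw [← xs, ← he₀] at s1 s2 s3
  rw [← xs', ← he₀] at s1' s2' s3'
  rw [← xs, ← he₁] at r1 r2 r3
  rw [← xs', ← he₁] at r1' r2' r3'
  rw [← xs, ← xs'] at s4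
  rw [← he₁, ← he₀, ← hT] at s5 s6
  have eA : T + (tt β₁ x - e₁) = tt β₁ x - e₀ := by rw [hT]; ring
  have eB : T + (tt β₁ x' - e₁) = tt β₁ x' - e₀ := by rw [hT]; ring
  have posm : ∀ {a b c d : ℝ}, 0 < a * b → 0 ≤ a * c → 0 ≤ b * d → c ≠ 0 → d ≠ 0 → 0 < c * d := by
    intro a b c d hab hac hbd hc hd
    have h7 : 0 ≤ (a * b) * (c * d) := by
      calc (0 : ℝ) ≤ (a * c) * (b * d) := mul_nonneg hac hbd
        _ = _ := by ring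
    exact lt_of_le_of_ne (nonneg_of_mul_nonneg_right h7 hab) (Ne.symm (mul_ne_zero hc hd))
  have nz : ∀ {a w : ℝ}, 0 < w → w ≤ |a| → a ≠ 0 := by
    intro a w hw h ha
    rw [ha, abs_zero] at h
    linarith only [hw, h]
  have k1 : 3 / 4 * D ≤ |tt β₁ x - e₀| := by linarith only [gx, s1]
  have k1' : 3 / 4 * D ≤ |tt β₁ x' - e₀| := by linarith only [gx', s1']
  have k2 : 3 / 4 * dd ≤ |tt β₁ x - e₁| := by linarith only [gA, r1]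
  have k2' : 3 / 4 * dd ≤ |tt β₁ x' - e₁| := by linarith only [gB, r1']
  have k3 : |tt β₁ x' - e₁| ≤ 7 / 5 * (m * dd) := by linarith only [gB', r2']
  have kT : 3 / 4 * D ≤ |T| := by linarith only [gT, s5]
  have kT' : |T| ≤ 7 / 5 * (m * D) := by linarith only [gT', s6]
  have k4 : 0 < (tt β₁ x - e₀) * (tt β₁ x' - e₀) :=
    posm sameσ s3 s3' (nz (by positivity) k1) (nz (by positivity) k1')
  have k5 : 0 < (tt β₁ x - e₁) * (tt β₁ x' - e₁) :=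
    posm sameA r3 r3' (nz (by positivity) k2) (nz (by positivity) k2')
  have k6 : 3 / 4 * (dd / m ^ q) ≤ |(tt β₁ x - e₁) - (tt β₁ x' - e₁)| := by
    rw [sub_sub_sub_cancel_right]
    linarith only [gxx, s4]
  have kd : dd ≤ D := by
    rw [hdd]
    exact div_le_self hD0.le (one_le_pow₀ hm1')
  have kJK : ωJ ≤ ωK := by
    rw [hωJ, hωK]
    exact div_le_div_of_nonneg_left hD0.le (pow_pos hm0 _) (pow_le_pow_right₀ hm1' hpb)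
  have kKD : ωK ≤ D := by
    rw [hωK]
    exact div_le_self hD0.le (one_le_pow₀ hm1')
  have k7 : m * ωK ^ 2 ≤ dd / m ^ q * dd := by
    have h7 : m ^ (q + 1) ≤ (m ^ p) ^ 2 := by
      rw [← pow_mul, mul_comm p 2]
      exact pow_le_pow_right₀ hm1' hqp
    have hmq : 0 < m ^ q := pow_pos hm0 q
    have h8 : m / (m ^ p) ^ 2 ≤ 1 / m ^ q := by
      rw [div_le_div_iff₀ (by positivity) hmq, one_mul, mul_comm, ← pow_succ]
      exact h7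
    have h9 : ωK = dd / m ^ p := by
      rw [hωK, hdd, pow_add]
      field_simp
    calc m * ωK ^ 2 = m / (m ^ p) ^ 2 * dd ^ 2 := by rw [h9, div_pow]; ring
      _ ≤ 1 / m ^ q * dd ^ 2 := mul_le_mul_of_nonneg_right h8 (by positivity)
      _ = dd / m ^ q * dd := by ring
  have hη0 : 0 ≤ η := by
    have h7 := (abs_nonneg _).trans (hsl x (hsub hx) x' (hsub hx'))
    exact nonneg_of_mul_nonneg_left h7 hH
  have k8 : η * (m ^ 3 * D ^ 2) ≤ ωJ ^ 2 := by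
    have e1 : (1 / m) ^ (2 * b + 3) * m ^ 3 = 1 / (m ^ b) ^ 2 := by
      rw [pow_add, one_div, inv_pow, inv_pow, ← pow_mul, mul_comm b 2]
      field_simp
    have e2 : η * m ^ 3 ≤ 1 / (m ^ b) ^ 2 := by
      rw [← e1]
      rw [← hm] at hη
      exact mul_le_mul_of_nonneg_right hη (by positivity)
    calc η * (m ^ 3 * D ^ 2) = (η * m ^ 3) * D ^ 2 := by ring
      _ ≤ (1 / (m ^ b) ^ 2) * D ^ 2 := mul_le_mul_of_nonneg_right e2 (by positivity)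
      _ = ωJ ^ 2 := by rw [hωJ, div_pow]; ring
  -- the phases
  obtain ⟨F, hF⟩ : ∃ F : ℤ × ℤ → ℝ, F = fun k => uu β₁ k * ((tt β₁ k - e₀) ^ 3 + (-(3 / 2) * T) * (tt β₁ k - e₀) ^ 2 + T ^ 3 / 2) := ⟨_, rfl⟩
  have FA : ∀ y : ℤ × ℤ, F y = uu β₁ y * ((tt β₁ y - e₁) ^ 2 * ((tt β₁ y - e₁) + 3 / 2 * T)) := by
    intro y
    rw [hF, hT]
    ring
  have FJ : ∀ y : ℤ × ℤ, F y = uu β₁ y * ((tt β₁ y - e₀) ^ 2 * ((tt β₁ y - e₀) + (-(3 / 2)) * T)) + T ^ 3 / 2 * uu β₁ y := by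
    intro y
    rw [hF]
    ring
  have hK : ∀ {y : ℤ × ℤ}, y ∈ arc β₀ B (N * M ^ (1 + (e + 1 + p))) k → 0 < uu β₁ y ∧
      |F y| ≤ 120 * (H * ωK ^ 2 * |T|) := by
    intro y hy
    obtain ⟨⟨yu1, yu2⟩, ys, ⟨yt0, yt1⟩, g1, g2⟩ := pos hy
    rw [← hs] at g1
    rw [hks] at g2
    obtain ⟨v1, v2⟩ := j_pt hδ hs0 yt1 g1 g2
    rw [← ys, ← he₁] at v1 v2
    have hup : 0 < uu β₁ y := by linarith only [hH, yu1]
    refine ⟨hup, ?_⟩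
    rw [FA]
    exact k_bd hH hup yu2 v1 v2 kKD kT (3 / 2) (by norm_num)
  have hJ : ∀ {y : ℤ × ℤ}, y ∈ arc β₀ B (N * M ^ (1 + b)) j → 0 < uu β₁ y ∧
      |uu β₁ y * ((tt β₁ y - e₀) ^ 2 * ((tt β₁ y - e₀) + (-(3 / 2)) * T))| ≤ 120 * (H * ωK ^ 2 * |T|) := by
    intro y hy
    obtain ⟨⟨yu1, yu2⟩, ys, ⟨yt0, yt1⟩, g1, g2⟩ := pos hy
    rw [← ht] at g1
    rw [hjt] at g2
    obtain ⟨v1, v2⟩ := j_pt hδ ht0 yt1 g1 g2
    rw [← ys, ← he₀] at v1 v2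
    have hup : 0 < uu β₁ y := by linarith only [hH, yu1]
    refine ⟨hup, ?_⟩
    refine (k_bd hH hup yu2 v1 v2 (kJK.trans kKD) kT (-(3 / 2)) (by rw [abs_neg]; norm_num)).trans ?_
    have h7 : ωJ ^ 2 ≤ ωK ^ 2 := pow_le_pow_left₀ hωJ0.le kJK 2
    have h8 : H * ωJ ^ 2 * |T| ≤ H * ωK ^ 2 * |T| :=
      mul_le_mul_of_nonneg_right (mul_le_mul_of_nonneg_left h7 hH.le) (abs_nonneg _)
    linarith only [h8]
  obtain ⟨uy₁, by₁⟩ := hK hy₁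
  obtain ⟨uy₂, by₂⟩ := hK hy₂
  obtain ⟨uy₃, by₃⟩ := hK hy₃
  obtain ⟨uy₄, by₄⟩ := hK hy₄
  obtain ⟨uz₁, bz₁⟩ := hJ hz₁
  obtain ⟨uz₂, bz₂⟩ := hJ hz₂
  obtain ⟨uz₃, bz₃⟩ := hJ hz₃
  obtain ⟨uz₄, bz₄⟩ := hJ hz₄
  obtain ⟨uz₅, bz₅⟩ := hJ hz₅
  obtain ⟨uz₆, bz₆⟩ := hJ hz₆
  have hlin := lin12 (β := β₁) (z := z) (e := e₀) (α := -(3 / 2) * T) (γ := T ^ 3 / 2) (x := x) (x' := x') (y₁ := y₁) (y₂ := y₂) (y₃ := y₃)
    (y₄ := y₄) (z₁ := z₁) (z₂ := z₂) (z₃ := z₃) (z₄ := z₄) (z₅ := z₅) (z₆ := z₆) (by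
      intro k hk
      simp only [Finset.mem_insert, Finset.mem_singleton] at hk
      rcases hk with rfl | rfl | rfl | rfl | rfl | rfl | rfl | rfl | rfl | rfl | rfl | rfl <;> assumption) hsum
  rw [← hF] at hlin
  refine fin12 hlin ?_ (L := H * ωJ ^ 3) ?_ ?_
  · -- the coefficient
    have h7 : |e₀| ≤ 8 := by
      rw [he₀]
      apply sl_bd hδ
      rw [abs_le]
      constructor <;> linarith only [ht0, ht12]
    have h7' : |e₁| ≤ 8 := by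
      rw [he₁]
      apply sl_bd hδ
      rw [abs_le]
      constructor <;> linarith only [hs0, hs12]
    rw [abs_le] at h7 h7' hz ⊢
    rw [hT]
    constructor <;> linarith only [h7.1, h7.2, h7'.1, h7'.2, hz.1, hz.2]
  · refine hX.trans (le_of_eq ?_)
    rw [hωJ, hD, hm, pow_add, pow_one]
    congr 2
    field_simp
  · have hR : |F y₁ + F y₂ - F y₃ - F y₄ + F z₁ + F z₂ + F z₃ - F z₄ - F z₅ - F z₆| ≤
        1200 * (H * ωK ^ 2 * |T|) + 3 / 2 * η * H * |T| ^ 3 := by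
      have hc : |T ^ 3 / 2 * ((uu β₁ z₁ - uu β₁ z₄) + (uu β₁ z₂ - uu β₁ z₅) + (uu β₁ z₃ - uu β₁ z₆))| ≤
          3 / 2 * η * H * |T| ^ 3 := by
        rw [abs_mul, abs_div, abs_pow, abs_of_pos (by norm_num : (0 : ℝ) < 2)]
        have h7 := hsl z₁ (hsub hz₁) z₄ (hsub hz₄)
        have h8 := hsl z₂ (hsub hz₂) z₅ (hsub hz₅)
        have h9 := hsl z₃ (hsub hz₃) z₆ (hsub hz₆)
        have h10 : |(uu β₁ z₁ - uu β₁ z₄) + (uu β₁ z₂ - uu β₁ z₅) + (uu β₁ z₃ - uu β₁ z₆)| ≤ 3 * (η * H) := by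
          rw [abs_le] at h7 h8 h9 ⊢
          constructor <;> linarith only [h7.1, h7.2, h8.1, h8.2, h9.1, h9.2]
        calc |T| ^ 3 / 2 * |(uu β₁ z₁ - uu β₁ z₄) + (uu β₁ z₂ - uu β₁ z₅) + (uu β₁ z₃ - uu β₁ z₆)| ≤
              |T| ^ 3 / 2 * (3 * (η * H)) := mul_le_mul_of_nonneg_left h10 (by positivity)
          _ = 3 / 2 * η * H * |T| ^ 3 := by ring
      rw [FJ z₁, FJ z₂, FJ z₃, FJ z₄, FJ z₅, FJ z₆]
      rw [abs_le] at by₁ by₂ by₃ by₄ bz₁ bz₂ bz₃ bz₄ bz₅ bz₆ hc ⊢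
      constructor
      · linarith only [by₁.1, by₂.1, by₃.2, by₄.2, bz₁.1, bz₂.1, bz₃.1, bz₄.2, bz₅.2, bz₆.2, hc.1]
      · linarith only [by₁.2, by₂.2, by₃.1, by₄.1, bz₁.2, bz₂.2, bz₃.2, bz₄.1, bz₅.1, bz₆.1, hc.2]
    have main := real2 (H := H) (m := m) (D := D) (d := dd) (ωK := ωK) (ωJ := ωJ) (g := dd / m ^ q) (η := η) (u := uu β₁ x)
      (u' := uu β₁ x') (T := T) (A := tt β₁ x - e₁) (B := tt β₁ x' - e₁) hH hmge hdd0 kd hωJ0 kJK xu1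
      (hsl x (hsub hx) x' (hsub hx')) kT kT' (by rw [eA]; exact k1) (by rw [eB]; exact k1') k2 k2' k3 k5
      (by rw [eA, eB]; exact k4) (by positivity) k6 k7 hη0 k8 hR
    have hfin : H * ωJ ^ 3 ≤ H * ωK ^ 2 * |T| := by
      have h7 : ωJ ^ 2 ≤ ωK ^ 2 := pow_le_pow_left₀ hωJ0.le kJK 2
      have h8 : ωJ ≤ |T| := by
        have h9 : ωJ * m ≤ D := by
          rw [hωJ, div_mul_eq_mul_div, div_le_iff₀ (pow_pos hm0 _)]
          apply mul_le_mul_of_nonneg_left _ hD0.le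
          calc m = m ^ 1 := (pow_one m).symm
            _ ≤ m ^ b := pow_le_pow_right₀ hm1' (by omega)
        have h10 : ωJ * 100000 ≤ ωJ * m := mul_le_mul_of_nonneg_left hmge hωJ0.le
        linarith only [hωJ0, gT, s5, h9, h10]
      calc H * ωJ ^ 3 = H * (ωJ ^ 2 * ωJ) := by ring
        _ ≤ H * (ωK ^ 2 * |T|) := mul_le_mul_of_nonneg_left (mul_le_mul h7 h8 hωJ0.le (by positivity)) hH.le
        _ = H * ωK ^ 2 * |T| := by ring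
    refine (hfin.trans main).trans (le_of_eq ?_)
    congr 1
    rw [← FA, ← FA]
    simp only [sg]
    ring

end Pool.Agent.Helper78.CE
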