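import Pool.Agent.Helper78.CE.B1
import Pool.Agent.Helper78.CE.B4
import Pool.Agent.Helper78.CD.B6

/-!
# CE-B5: the sums over the arcs of a slab form a cubic system; decoupling for one linear box
-/

open MeasureTheory Real Set Filter Topology

set_option autoImplicit false

namespace Pool.Agent.Helper78.CE

open Pool.Agent.Helper22.AE
open Pool.Agent.Helper92.GC
open Pool.Agent.Helper22.AC (IsWt sep)
open Pool.Agent.Helper78.CD (n12 Bas Sys3)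

theorem hs_split {β : ℝ} {B : Finset (ℤ × ℤ)} (a : ℤ × ℤ → ℂ) (f g : ℤ × ℤ → ℝ) {M : ℕ}
    (hM : 1 ≤ M) (N j : ℕ) (q : (ℝ × ℝ) × (ℝ × ℝ)) :
    hs (arc β B N j) a f g q = ∑ r ∈ Finset.range M, hs (arc β B (N * M) (M * j + r)) a f g q := by
  classical
  have hfl : ∀ k : ℤ × ℤ, ⌊(N : ℝ) * ((tt β k + 6) / 12)⌋₊ =
      ⌊((N * M : ℕ) : ℝ) * ((tt β k + 6) / 12)⌋₊ / M := by
    intro k
    rw [← Nat.floor_div_natCast]
    congr 1
    have : (M : ℝ) ≠ 0 := by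
      have : (0 : ℝ) < M := by exact_mod_cast hM
      exact this.ne'
    push_cast
    field_simp
  unfold hs
  rw [← Finset.sum_fiberwise_of_maps_to (s := arc β B N j) (t := Finset.range M)
    (g := fun k => ⌊((N * M : ℕ) : ℝ) * ((tt β k + 6) / 12)⌋₊ % M)
    (fun k _ => Finset.mem_range.2 (Nat.mod_lt _ (by omega)))]
  refine Finset.sum_congr rfl fun r hr => Finset.sum_congr ?_ fun _ _ => rfl
  have hr' : r < M := Finset.mem_range.1 hr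
  ext k
  rw [Finset.mem_filter, mem_arc', mem_arc', hfl k]
  set x : ℕ := ⌊((N * M : ℕ) : ℝ) * ((tt β k + 6) / 12)⌋₊ with hx
  constructor
  · rintro ⟨⟨h1, h2⟩, h3⟩
    refine ⟨h1, ?_⟩
    have h4 := Nat.div_add_mod x M
    rw [h2] at h4
    rw [h3] at h4
    exact h4.symm
  · rintro ⟨h1, h2⟩
    refine ⟨⟨h1, ?_⟩, ?_⟩
    · rw [h2, Nat.mul_add_div (by omega), Nat.div_eq_of_lt hr', add_zero]
    · rw [h2, Nat.mul_add_mod, Nat.mod_eq_of_lt hr']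

private lemma shift_div (M l b j₀ j : ℕ) (hM : 1 ≤ M) :
    (M ^ (l + b) * j₀ + j) / M ^ b = M ^ l * j₀ + j / M ^ b := by
  have h : M ^ (l + b) * j₀ + j = M ^ b * (M ^ l * j₀) + j := by
    rw [pow_add]
    ring
  rw [h, Nat.mul_add_div (pow_pos hM b)]

private lemma sep_shift {x i j : ℕ} (h : sep i j) : sep (x + i) (x + j) := by
  unfold Pool.Agent.Helper22.AC.sep at *
  omega

theorem sys_hs {β₀ β₁ z H : ℝ} (hH : 0 < H) {M : ℕ} (hM : 100000 ≤ M) {N m j₀ : ℕ} (hN : 1 ≤ N) {X η : ℝ} {v w : ℝ → ℝ}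
    (hv : IsWt X v) (hw : IsWt X w) (a : ℤ × ℤ → ℂ) {B : Finset (ℤ × ℤ)} (hB : InReg β₀ H B)
    (hβ : |β₁ - β₀| ≤ 1 / 40) (hz : |z| ≤ 40) (hslab : ∀ k ∈ B, ∀ k' ∈ B, |uu β₁ k - uu β₁ k'| ≤ η * H)
    (hη : η ≤ (1 / (M : ℝ)) ^ (3 * m + 3)) (hX : 200 / X ≤ H * (12 / (N * (M : ℝ) ^ m)) ^ 3) :
    Sys3 (mu2 v w) M m (fun s j => hs (arc β₀ B (N * M ^ s) (M ^ s * j₀ + j)) a (p2 β₁ z) (p3 β₁ z)) := by
  have hM1 : 1 ≤ M := by omega
  have hMpos : (0 : ℝ) < M := by exact_mod_cast hM1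
  have hM1' : (1 : ℝ) ≤ M := by exact_mod_cast hM1
  have hN0 : (0 : ℝ) < N := by exact_mod_cast hN
  have hsub : ∀ (N i : ℕ) (k : ℤ × ℤ), k ∈ arc β₀ B N i → k ∈ B := fun N i k hk =>
    (mem_arc'.1 hk).1
  have hηb : ∀ e : ℕ, e ≤ 3 * m + 3 → η ≤ (1 / (M : ℝ)) ^ e := by
    intro e he
    refine hη.trans (pow_le_pow_of_le_one (by positivity) ?_ he)
    rw [div_le_one hMpos]
    exact hM1'
  have hXb : ∀ l b : ℕ, l + 1 + b ≤ m → 200 / X ≤ H * (12 / (((N * M ^ l : ℕ) : ℝ) * (M : ℝ) ^ (1 + b))) ^ 3 := by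
    intro l b hlb
    refine hX.trans (mul_le_mul_of_nonneg_left ?_ hH.le)
    have h1 : ((N * M ^ l : ℕ) : ℝ) * (M : ℝ) ^ (1 + b) ≤ N * (M : ℝ) ^ m := by
      push_cast
      rw [mul_assoc, ← pow_add]
      exact mul_le_mul_of_nonneg_left (pow_le_pow_right₀ hM1' (by omega)) hN0.le
    have h0 : 0 < ((N * M ^ l : ℕ) : ℝ) * (M : ℝ) ^ (1 + b) := by
      push_cast
      positivity
    have h2 : 12 / (N * (M : ℝ) ^ m) ≤ 12 / (((N * M ^ l : ℕ) : ℝ) * (M : ℝ) ^ (1 + b)) :=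
      div_le_div_of_nonneg_left (by norm_num) h0 h1
    exact pow_le_pow_left₀ (by positivity) h2 3
  have hNl : ∀ l : ℕ, 1 ≤ N * M ^ l := fun l => Nat.one_le_iff_ne_zero.2 (Nat.mul_ne_zero (by omega) (pow_pos hM1 l).ne')
  have hlev : ∀ {l t J : ℕ} {y : ℤ × ℤ}, y ∈ arc β₀ B (N * M ^ (l + 1 + t)) J → y ∈ arc β₀ B (N * M ^ l * M ^ (1 + t)) J := by
    intro l t J y hy
    have e1 : N * M ^ l * M ^ (1 + t) = N * M ^ (l + 1 + t) := by
      rw [mul_assoc, ← pow_add, add_assoc]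
    rw [e1]
    exact hy
  refine ⟨⟨fun s j => (hs_cont _ a _ _).measurable, fun s j => ⟨_, hs_norm_le _ a _ _⟩, ?_⟩, ?_, ?_⟩
  · intro s _ j _ ω
    rw [hs_split a _ _ hM1]
    refine Finset.sum_congr rfl fun r _ => ?_
    have e : M * (M ^ s * j₀ + j) + r = M ^ (s + 1) * j₀ + (M * j + r) := by
      rw [pow_succ]
      ring
    have e2 : N * M ^ s * M = N * M ^ (s + 1) := by
      rw [mul_assoc, ← pow_succ]
    rw [e, e2]
  · intro l b c hcb hlb hlc j hj i hi i' hi' hji hii hsep hs'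
    have h10 : ∀ ω, ((‖hs (arc β₀ B (N * M ^ (l + 1 + b)) (M ^ (l + 1 + b) * j₀ + j)) a (p2 β₁ z) (p3 β₁ z) ω‖ ^ 10 : ℝ) : ℂ) =
        ((‖hs (arc β₀ B (N * M ^ (l + 1 + b)) (M ^ (l + 1 + b) * j₀ + j)) a (p2 β₁ z) (p3 β₁ z) ω‖ ^ 4 : ℝ) : ℂ) *
        ((‖hs (arc β₀ B (N * M ^ (l + 1 + b)) (M ^ (l + 1 + b) * j₀ + j)) a (p2 β₁ z) (p3 β₁ z) ω‖ ^ 6 : ℝ) : ℂ) := by
      intro ω
      rw [← Complex.ofReal_mul, ← pow_add]
    simp only [h10, ← mul_assoc]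
    refine orth_hs hv hw ?_
    intro x hx x' hx' y₁ hy₁ y₂ hy₂ y₃ hy₃ y₄ hy₄ z₁ hz₁ z₂ hz₂ z₃ hz₃ z₄ hz₄ z₅ hz₅ z₆ hz₆ hsum
    refine geo1 (N := N * M ^ l) (b := b) (c := c) (i := M ^ (l + 1 + c) * j₀ + i)
      (i' := M ^ (l + 1 + c) * j₀ + i') (j := M ^ (l + 1 + b) * j₀ + j) (η := η) hM (hNl l) hcb hH hB hβ hz
      (hηb _ (by omega)) (hXb l b hlb) ?_ ?_ ?_ ?_ (hlev hx) (hlev hx') (hlev hy₁) (hlev hy₂)
      (hlev hy₃) (hlev hy₄) (hlev hz₁) (hlev hz₂) (hlev hz₃) (hlev hz₄) (hlev hz₅) (hlev hz₆) ?_ hsum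
    · have e1 := shift_div M l (b + 1) j₀ j hM1
      have e2 := shift_div M l (c + 1) j₀ i hM1
      have e3 : l + (b + 1) = l + 1 + b := by ring
      have e4 : l + (c + 1) = l + 1 + c := by ring
      rw [e3] at e1
      rw [e4] at e2
      rw [e1, e2, hji]
    · rw [shift_div M (l + 1) c j₀ i hM1, shift_div M (l + 1) c j₀ i' hM1, hii]
    · rw [shift_div M (l + 1) c j₀ i hM1, shift_div M (l + 1) b j₀ j hM1]
      exact sep_shift hsep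
    · exact sep_shift hs'
    · exact hslab x (hsub _ _ _ hx) x' (hsub _ _ _ hx')
  · intro l b d p q hqp hlb hpb hqb j hj k hk i hi i' hi' hjk hskj hki hii hsik hsii
    refine orth_hs hv hw ?_
    intro x hx x' hx' y₁ hy₁ y₂ hy₂ y₃ hy₃ y₄ hy₄ z₁ hz₁ z₂ hz₂ z₃ hz₃ z₄ hz₄ z₅ hz₅ z₆ hz₆ hsum
    refine geo2 (N := N * M ^ l) (b := b) (e := d) (p := p) (q := q) (i := M ^ (l + 1 + (d + 1 + q)) * j₀ + i)
      (i' := M ^ (l + 1 + (d + 1 + q)) * j₀ + i') (j := M ^ (l + 1 + b) * j₀ + j) (k := M ^ (l + 1 + (d + 1 + p)) * j₀ + k)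
      (η := η) hM (hNl l) hqp hpb hH hB hβ hz
      (hηb _ (by omega)) (hXb l b hlb) ?_ ?_ ?_ ?_ ?_ ?_ (hlev hx) (hlev hx') (hlev hy₁) (hlev hy₂)
      (hlev hy₃) (hlev hy₄) (hlev hz₁) (hlev hz₂) (hlev hz₃) (hlev hz₄) (hlev hz₅) (hlev hz₆) hslab hsum
    · have e1 := shift_div M l (b + 1) j₀ j hM1
      have e2 := shift_div M l (d + 1 + p + 1) j₀ k hM1
      have e3 : l + (b + 1) = l + 1 + b := by ring
      have e4 : l + (d + 1 + p + 1) = l + 1 + (d + 1 + p) := by ring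
      rw [e3] at e1
      rw [e4] at e2
      rw [e1, e2, hjk]
    · rw [shift_div M (l + 1) (d + 1 + p) j₀ k hM1, shift_div M (l + 1) b j₀ j hM1]
      exact sep_shift hskj
    · have e1 := shift_div M (l + 1 + d) (p + 1) j₀ k hM1
      have e2 := shift_div M (l + 1 + d) (q + 1) j₀ i hM1
      have e3 : l + 1 + d + (p + 1) = l + 1 + (d + 1 + p) := by ring
      have e4 : l + 1 + d + (q + 1) = l + 1 + (d + 1 + q) := by ring
      rw [e3] at e1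
      rw [e4] at e2
      rw [e1, e2, hki]
    · have e1 := shift_div M (l + 1 + (d + 1)) q j₀ i hM1
      have e2 := shift_div M (l + 1 + (d + 1)) q j₀ i' hM1
      have e3 : l + 1 + (d + 1) + q = l + 1 + (d + 1 + q) := by ring
      rw [e3] at e1 e2
      rw [e1, e2, hii]
    · have e1 := shift_div M (l + 1 + (d + 1)) q j₀ i hM1
      have e2 := shift_div M (l + 1 + (d + 1)) p j₀ k hM1
      have e3 : l + 1 + (d + 1) + q = l + 1 + (d + 1 + q) := by ring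
      have e4 : l + 1 + (d + 1) + p = l + 1 + (d + 1 + p) := by ring
      rw [e3] at e1
      rw [e4] at e2
      rw [e1, e2]
      exact sep_shift hsik
    · exact sep_shift hsii

/-- Decoupling (exponent `12`) of one arc of `N` into `M^m` sub-arcs on a linear box: frequencies `B` in the region of `β₀`, in a thin slab (`uu β₁` varies by at most `η H`),
arcs with respect to `tt β₀`, phases `p2 β₁ z`, `p3 β₁ z` for any `β₁` near `β₀`, any centre `|z| ≤ 40`, all coefficients. -/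
theorem box_dec {ε : ℝ} (hε : 0 < ε) : ∃ M0 : ℕ, 1 ≤ M0 ∧ ∀ M : ℕ, M0 ≤ M → ∃ C : ℝ, 1 ≤ C ∧
    ∀ (m N j₀ : ℕ) (β₀ β₁ z H X η : ℝ) (v w : ℝ → ℝ) (a : ℤ × ℤ → ℂ) (B : Finset (ℤ × ℤ)), 1 ≤ N → 0 < H → 0 < X → IsWt X v → IsWt X w →
      InReg β₀ H B → |β₁ - β₀| ≤ 1 / 40 → |z| ≤ 40 → (∀ k ∈ B, ∀ k' ∈ B, |uu β₁ k - uu β₁ k'| ≤ η * H) →
      η ≤ (1 / (M : ℝ)) ^ (3 * m + 3) → 200 / X ≤ H * (12 / (N * (M : ℝ) ^ m)) ^ 3 →
      n12 (mu2 v w) (hs (arc β₀ B N j₀) a (p2 β₁ z) (p3 β₁ z)) ≤ C * (M : ℝ) ^ (ε * (m : ℝ)) *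
        ∑ r ∈ Finset.range (M ^ m), n12 (mu2 v w) (hs (arc β₀ B (N * M ^ m) (M ^ m * j₀ + r)) a (p2 β₁ z) (p3 β₁ z)) := by
  obtain ⟨M0, hM0, hdec⟩ := Pool.Agent.Helper78.CD.decoupling hε
  refine ⟨max M0 100000, by omega, fun M hM => ?_⟩
  obtain ⟨C, hC, hd⟩ := hdec M ((le_max_left _ _).trans hM)
  refine ⟨C, hC, ?_⟩
  intro m N j₀ β₀ β₁ z H X η v w a B hN hH _ hv hw hB hβ hz hslab hη hX
  have hprob := mu2_prob hv hw
  have h2 := hd _ (mu2 v w) m _ (sys_hs hH ((le_max_right _ _).trans hM) (m := m) (j₀ := j₀) hN hv hw a hB hβ hz hslab hη hX)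
  simp only [add_zero, pow_zero, one_mul, mul_one] at h2
  exact h2

end Pool.Agent.Helper78.CE
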