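import Pool.Agent.Helper78.CE.Defs
import Pool.Agent.Helper92.GC.T1

/-!
# CE-B1: orthogonality for the sums `hs`
-/

open MeasureTheory Real Set Filter Topology

set_option autoImplicit false

namespace Pool.Agent.Helper78.CE

open Pool.Agent.Helper22.AE
open Pool.Agent.Helper92.GC
open Pool.Agent.Helper22.AC (IsWt)

theorem hs_cont (S : Finset (ℤ × ℤ)) (a : ℤ × ℤ → ℂ) (f g : ℤ × ℤ → ℝ) : Continuous (hs S a f g) := by
  unfold hs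
  refine continuous_finsetSum _ fun k _ => continuous_const.mul (ee_cont.comp ?_)
  unfold dt
  fun_prop

theorem hs_norm_le (S : Finset (ℤ × ℤ)) (a : ℤ × ℤ → ℂ) (f g : ℤ × ℤ → ℝ) (q : (ℝ × ℝ) × (ℝ × ℝ)) :
    ‖hs S a f g q‖ ≤ ∑ k ∈ S, ‖a k‖ := by
  unfold hs
  refine (norm_sum_le _ _).trans (le_of_eq (Finset.sum_congr rfl fun k _ => ?_))
  rw [norm_mul, ee_norm, mul_one]

private theorem b1_prob {X : ℝ} {v : ℝ → ℝ} (hv : IsWt X v) :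
    IsProbabilityMeasure ((volume : Measure ℝ).withDensity fun R => ENNReal.ofReal (v R)) := by
  have hint : Integrable v := by
    by_contra hcon
    have h2 := hv.int_one
    rw [integral_undef hcon] at h2
    exact zero_ne_one h2
  constructor
  rw [withDensity_apply _ MeasurableSet.univ, Measure.restrict_univ,
    ← ofReal_integral_eq_lintegral_ofReal hint (Eventually.of_forall hv.nonneg), hv.int_one,
    ENNReal.ofReal_one]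

theorem tq_prob : IsProbabilityMeasure ((volume : Measure (ℝ × ℝ)).restrict Tq) := by
  constructor
  unfold Tq
  rw [Measure.restrict_apply_univ, Measure.volume_eq_prod, Measure.prod_prod, Real.volume_Icc,
    sub_zero, ENNReal.ofReal_one, mul_one]

theorem mu2_prob {X X' : ℝ} {v w : ℝ → ℝ} (hv : IsWt X v) (hw : IsWt X' w) : IsProbabilityMeasure (mu2 v w) := by
  have h1 := tq_prob
  have h2 := b1_prob hv
  have h3 := b1_prob hw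
  unfold mu2
  infer_instance

/-- the character -/
noncomputable def hE (k : ℤ × ℤ) (ξ ζ : ℝ) (q : (ℝ × ℝ) × (ℝ × ℝ)) : ℂ := ee (dt k q.1 + q.2.1 * ξ + q.2.2 * ζ)

private theorem b1_wt {X : ℝ} {v : ℝ → ℝ} (hv : IsWt X v) {ξ : ℝ} (h : 1 / X ≤ |ξ|) :
    ∫ R, ee (R * ξ) ∂((volume : Measure ℝ).withDensity fun R => ENNReal.ofReal (v R)) = 0 := by
  rw [integral_withDensity_eq_integral_toReal_smul
    (hv.cont.measurable.ennreal_ofReal) (Filter.Eventually.of_forall fun _ => ENNReal.ofReal_lt_top)]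
  have h1 := hv.four (-ξ) (by rwa [abs_neg])
  rw [← h1]
  refine integral_congr_ae (Eventually.of_forall fun R => ?_)
  simp only
  rw [ENNReal.toReal_ofReal (hv.nonneg R), Complex.real_smul]
  congr 2
  ring

theorem hE_int {X X' : ℝ} {v w : ℝ → ℝ} (hv : IsWt X v) (hw : IsWt X' w) (k : ℤ × ℤ) (ξ ζ : ℝ)
    (h : k ≠ 0 ∨ 1 / X ≤ |ξ| ∨ 1 / X' ≤ |ζ|) : ∫ q, hE k ξ ζ q ∂(mu2 v w) = 0 := by
  have h1 := tq_prob
  have h2 := b1_prob hv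
  have h3 := b1_prob hw
  have e1 : (fun q => hE k ξ ζ q) = fun q : (ℝ × ℝ) × (ℝ × ℝ) =>
      ee (dt k q.1) * (ee (q.2.1 * ξ) * ee (q.2.2 * ζ)) := by
    funext q
    unfold hE
    rw [ee_add, ee_add, mul_assoc]
  rw [e1]
  unfold mu2
  rw [integral_prod_mul (fun c : ℝ × ℝ => ee (dt k c)) (fun r : ℝ × ℝ => ee (r.1 * ξ) * ee (r.2 * ζ)),
    integral_prod_mul (fun R : ℝ => ee (R * ξ)) (fun Z : ℝ => ee (Z * ζ))]
  rcases h with h | h | h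
  · rw [ee_int, if_neg h, zero_mul]
  · rw [b1_wt hv h, zero_mul, mul_zero]
  · rw [b1_wt hw h, mul_zero, mul_zero]

/-- bounded continuous -/
private def BC (g : (ℝ × ℝ) × (ℝ × ℝ) → ℂ) : Prop := Continuous g ∧ ∃ B : ℝ, ∀ q, ‖g q‖ ≤ B

private theorem BC_mul {f g : (ℝ × ℝ) × (ℝ × ℝ) → ℂ} (hf : BC f) (hg : BC g) :
    BC (fun q => f q * g q) := by
  obtain ⟨hf1, B, hB⟩ := hf
  obtain ⟨hg1, B', hB'⟩ := hg
  refine ⟨hf1.mul hg1, B * B', fun q => ?_⟩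
  rw [norm_mul]
  exact mul_le_mul (hB q) (hB' q) (norm_nonneg _) ((norm_nonneg _).trans (hB q))

private theorem BC_conj {f : (ℝ × ℝ) × (ℝ × ℝ) → ℂ} (hf : BC f) :
    BC (fun q => (starRingEnd ℂ) (f q)) := by
  obtain ⟨hf1, B, hB⟩ := hf
  refine ⟨Complex.continuous_conj.comp hf1, B, fun q => ?_⟩
  rw [RCLike.norm_conj]
  exact hB q

private theorem BC_hs (S : Finset (ℤ × ℤ)) (a : ℤ × ℤ → ℂ) (f g : ℤ × ℤ → ℝ) :
    BC (hs S a f g) := ⟨hs_cont S a f g, _, hs_norm_le S a f g⟩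

private theorem BC_E (k : ℤ × ℤ) (ξ ζ : ℝ) : BC (hE k ξ ζ) := by
  refine ⟨?_, 1, fun q => (ee_norm _).le⟩
  unfold hE dt
  exact ee_cont.comp (by fun_prop)

private theorem BC_int {X X' : ℝ} {v w : ℝ → ℝ} (hv : IsWt X v) (hw : IsWt X' w) {f : (ℝ × ℝ) × (ℝ × ℝ) → ℂ}
    (hf : BC f) : Integrable f (mu2 v w) := by
  have := mu2_prob hv hw
  obtain ⟨hf1, B, hB⟩ := hf
  exact Integrable.of_bound hf1.aestronglyMeasurable B (Filter.Eventually.of_forall hB)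

private theorem E_mul (k y : ℤ × ℤ) (ξ η ζ ζ' : ℝ) (q : (ℝ × ℝ) × (ℝ × ℝ)) :
    hE k ξ ζ q * hE y η ζ' q = hE (k + y) (ξ + η) (ζ + ζ') q := by
  unfold hE
  rw [← ee_add, dt_add]
  congr 1
  ring

private theorem dt_neg' (k : ℤ × ℤ) (c : ℝ × ℝ) : dt (-k) c = -dt k c := by
  unfold dt
  rw [Prod.fst_neg, Prod.snd_neg]
  push_cast
  ring

private theorem E_conj (y : ℤ × ℤ) (η ζ : ℝ) (q : (ℝ × ℝ) × (ℝ × ℝ)) :
    (starRingEnd ℂ) (hE y η ζ q) = hE (-y) (-η) (-ζ) q := by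
  unfold hE
  rw [← ee_neg, dt_neg']
  congr 1
  ring

private theorem step {X X' : ℝ} {v w : ℝ → ℝ} (hv : IsWt X v) (hw : IsWt X' w) {G : (ℝ × ℝ) × (ℝ × ℝ) → ℂ} (hG : BC G)
    {C : ℤ × ℤ → ℝ → ℝ → Prop} (hC : ∀ k ξ ζ, C k ξ ζ → ∫ q, hE k ξ ζ q * G q ∂(mu2 v w) = 0)
    (B : Finset (ℤ × ℤ)) (a : ℤ × ℤ → ℂ) (f g : ℤ × ℤ → ℝ) (k : ℤ × ℤ) (ξ ζ : ℝ)
    (h : ∀ y ∈ B, C (k + y) (ξ + f y) (ζ + g y)) :
    ∫ q, hE k ξ ζ q * (hs B a f g q * G q) ∂(mu2 v w) = 0 := by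
  have e1 : (fun q => hE k ξ ζ q * (hs B a f g q * G q)) =
      fun q => ∑ y ∈ B, a y * (hE (k + y) (ξ + f y) (ζ + g y) q * G q) := by
    funext q
    have h1 : hs B a f g q = ∑ y ∈ B, a y * hE y (f y) (g y) q := rfl
    rw [h1, Finset.sum_mul, Finset.mul_sum]
    refine Finset.sum_congr rfl fun y _ => ?_
    rw [← E_mul]
    ring
  rw [e1, integral_finsetSum]
  · refine Finset.sum_eq_zero fun y hy => ?_
    rw [integral_const_mul, hC _ _ _ (h y hy), mul_zero]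
  · intro y _
    exact (BC_int hv hw (BC_mul (BC_E _ _ _) hG)).const_mul _

private theorem stepc {X X' : ℝ} {v w : ℝ → ℝ} (hv : IsWt X v) (hw : IsWt X' w) {G : (ℝ × ℝ) × (ℝ × ℝ) → ℂ} (hG : BC G)
    {C : ℤ × ℤ → ℝ → ℝ → Prop} (hC : ∀ k ξ ζ, C k ξ ζ → ∫ q, hE k ξ ζ q * G q ∂(mu2 v w) = 0)
    (B : Finset (ℤ × ℤ)) (a : ℤ × ℤ → ℂ) (f g : ℤ × ℤ → ℝ) (k : ℤ × ℤ) (ξ ζ : ℝ)
    (h : ∀ y ∈ B, C (k - y) (ξ - f y) (ζ - g y)) :
    ∫ q, hE k ξ ζ q * ((starRingEnd ℂ) (hs B a f g q) * G q) ∂(mu2 v w) = 0 := by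
  have e1 : (fun q => hE k ξ ζ q * ((starRingEnd ℂ) (hs B a f g q) * G q)) =
      fun q => ∑ y ∈ B, (starRingEnd ℂ) (a y) * (hE (k - y) (ξ - f y) (ζ - g y) q * G q) := by
    funext q
    have h1 : hs B a f g q = ∑ y ∈ B, a y * hE y (f y) (g y) q := rfl
    rw [h1, map_sum, Finset.sum_mul, Finset.mul_sum]
    refine Finset.sum_congr rfl fun y _ => ?_
    rw [map_mul, E_conj, sub_eq_add_neg, sub_eq_add_neg, sub_eq_add_neg, ← E_mul]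
    ring
  rw [e1, integral_finsetSum]
  · refine Finset.sum_eq_zero fun y hy => ?_
    rw [integral_const_mul, hC _ _ _ (h y hy), mul_zero]
  · intro y _
    exact (BC_int hv hw (BC_mul (BC_E _ _ _) hG)).const_mul _

/-- Orthogonality: two sums over `B₁`, `B₂` against `|hs K|^4 |hs J|^6`. -/
theorem orth_hs {X X' : ℝ} {v w : ℝ → ℝ} (hv : IsWt X v) (hw : IsWt X' w) {B₁ B₂ K J : Finset (ℤ × ℤ)} {a : ℤ × ℤ → ℂ} {f g : ℤ × ℤ → ℝ}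
    (hne : ∀ x ∈ B₁, ∀ x' ∈ B₂, ∀ y₁ ∈ K, ∀ y₂ ∈ K, ∀ y₃ ∈ K, ∀ y₄ ∈ K,
      ∀ z₁ ∈ J, ∀ z₂ ∈ J, ∀ z₃ ∈ J, ∀ z₄ ∈ J, ∀ z₅ ∈ J, ∀ z₆ ∈ J,
      x - x' + y₁ + y₂ - y₃ - y₄ + z₁ + z₂ + z₃ - z₄ - z₅ - z₆ = 0 →
      1 / X ≤ |f x - f x' + f y₁ + f y₂ - f y₃ - f y₄ + f z₁ + f z₂ + f z₃ - f z₄ - f z₅ - f z₆| ∨
      1 / X' ≤ |g x - g x' + g y₁ + g y₂ - g y₃ - g y₄ + g z₁ + g z₂ + g z₃ - g z₄ - g z₅ - g z₆|) :
    ∫ q, hs B₁ a f g q * (starRingEnd ℂ) (hs B₂ a f g q) * ((‖hs K a f g q‖ ^ 4 : ℝ) : ℂ) *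
      ((‖hs J a f g q‖ ^ 6 : ℝ) : ℂ) ∂(mu2 v w) = 0 := by
  have hJ := BC_hs J a f g
  have hJc := BC_conj hJ
  have hK := BC_hs K a f g
  have hKc := BC_conj hK
  have hB2 := BC_conj (BC_hs B₂ a f g)
  have b0 : BC (fun _ => 1) := ⟨continuous_const, 1, fun q => by rw [norm_one]⟩
  have h0 : ∀ (k : ℤ × ℤ) (ξ ζ : ℝ), (k ≠ 0 ∨ 1 / X ≤ |ξ| ∨ 1 / X' ≤ |ζ|) →
      ∫ q, hE k ξ ζ q * (fun _ => (1 : ℂ)) q ∂(mu2 v w) = 0 := by
    intro k ξ ζ h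
    simp only [mul_one]
    exact hE_int hv hw k ξ ζ h
  have c1 := BC_mul hJc b0
  have g1 := stepc hv hw b0 (C := fun k ξ ζ => k ≠ 0 ∨ 1 / X ≤ |ξ| ∨ 1 / X' ≤ |ζ|) h0 J a f g
  have c2 := BC_mul hJc c1
  have g2 := stepc hv hw c1 g1 J a f g
  have c3 := BC_mul hJc c2
  have g3 := stepc hv hw c2 g2 J a f g
  have c4 := BC_mul hJ c3
  have g4 := step hv hw c3 g3 J a f g
  have c5 := BC_mul hJ c4
  have g5 := step hv hw c4 g4 J a f g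
  have c6 := BC_mul hJ c5
  have g6 := step hv hw c5 g5 J a f g
  have b1 := BC_mul hKc c6
  have h1 := stepc hv hw c6 g6 K a f g
  have b2 := BC_mul hKc b1
  have h2 := stepc hv hw b1 h1 K a f g
  have b3 := BC_mul hK b2
  have h3 := step hv hw b2 h2 K a f g
  have b4 := BC_mul hK b3
  have h4 := step hv hw b3 h3 K a f g
  have b5 := BC_mul hB2 b4
  have h5 := stepc hv hw b4 h4 B₂ a f g
  have h6 := step hv hw b5 h5 B₁ a f g 0 0 0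
  rw [← h6]
  · congr 1
    funext q
    have hE0 : hE 0 0 0 q = 1 := by
      unfold hE dt
      simp [ee_zero]
    have h7 : ∀ S : Finset (ℤ × ℤ), hs S a f g q * (starRingEnd ℂ) (hs S a f g q) = ((‖hs S a f g q‖ ^ 2 : ℝ) : ℂ) := by
      intro S
      rw [Complex.mul_conj, Complex.normSq_eq_norm_sq]
    have hz : ((‖hs K a f g q‖ ^ 4 : ℝ) : ℂ) = hs K a f g q * (hs K a f g q *
        ((starRingEnd ℂ) (hs K a f g q) * (starRingEnd ℂ) (hs K a f g q))) := by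
      have h8 : ((‖hs K a f g q‖ ^ 4 : ℝ) : ℂ) =
          ((‖hs K a f g q‖ ^ 2 : ℝ) : ℂ) * ((‖hs K a f g q‖ ^ 2 : ℝ) : ℂ) := by
        push_cast
        ring
      rw [h8, ← h7]
      ring
    have hz' : ((‖hs J a f g q‖ ^ 6 : ℝ) : ℂ) = hs J a f g q * (hs J a f g q * (hs J a f g q *
        ((starRingEnd ℂ) (hs J a f g q) * ((starRingEnd ℂ) (hs J a f g q) * (starRingEnd ℂ) (hs J a f g q))))) := by
      have h8 : ((‖hs J a f g q‖ ^ 6 : ℝ) : ℂ) =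
          ((‖hs J a f g q‖ ^ 2 : ℝ) : ℂ) * ((‖hs J a f g q‖ ^ 2 : ℝ) : ℂ) * ((‖hs J a f g q‖ ^ 2 : ℝ) : ℂ) := by
        push_cast
        ring
      rw [h8, ← h7]
      ring
    rw [hE0, hz, hz']
    ring
  · intro x hx x' hx' y₁ hy₁ y₂ hy₂ y₃ hy₃ y₄ hy₄ z₁ hz₁ z₂ hz₂ z₃ hz₃ z₄ hz₄ z₅ hz₅ z₆ hz₆
    by_cases hk : x - x' + y₁ + y₂ - y₃ - y₄ + z₁ + z₂ + z₃ - z₄ - z₅ - z₆ = 0
    · right
      have h9 := hne x hx x' hx' y₁ hy₁ y₂ hy₂ y₃ hy₃ y₄ hy₄ z₁ hz₁ z₂ hz₂ z₃ hz₃ z₄ hz₄ z₅ hz₅ z₆ hz₆ hk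
      rw [zero_add, zero_add]
      exact h9
    · left
      rw [zero_add]
      exact hk

end Pool.Agent.Helper78.CE
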